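import Pool.Agent.helper62.DP8.Chk

set_option autoImplicit false
set_option maxRecDepth 100000

namespace Pool.Agent.helper62.DP8

/-- The tree for girth 3. -/
def tree3 : Tr :=
  (.cert 7 [.last 0, .last 1, .last 2])

/-- The tree for girth 4. -/
def tree4 : Tr :=
  (.nbr 0 (.cons (.nbr 1 (.cons (.nbr 2 (.cons (.cert 63 [.last 0, .last 1, .last 2, .last 3, .last 4, .last 5]) (.cons (.nbr 3 (.cons (.cert 127
  [.last 0, .last 1, .last 2, .last 3, .last 4, .last 5, .last 6]) (.cons (.rel 0 6 (.cert 127 [.sav 1 0, .last 0, .last 2, .last 3, .last 4, .last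
  5, .last 6]) (.cons (.rel 1 7 (.cert 127 [.sav 2 3, .last 3, .last 0, .last 1, .last 4, .last 5, .last 6]) (.cons (.rel 4 5 (.cert 127 [.sav 1 4,
  .sav 0 4, .last 4, .last 2, .last 3, .last 5, .last 6]) (.cons (.cert 254 [.last 1, .last 2, .last 3, .last 4, .last 5, .last 6, .last 7]) (.cons
  (.cert 254 [.last 3, .last 1, .last 2, .last 4, .last 5, .last 6, .last 7]) (.cons (.cert 254 [.last 1, .last 2, .last 3, .last 4, .last 5, .last
  6, .last 7]) (.cons (.cert 507 [.sav 0 3, .last 3, .last 1, .last 4, .last 5, .last 6, .last 7, .last 8]) .nil))))) .nil)) .nil)) .nil))) .nil)))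
  .nil)) .nil))

/-- The tree for girth 5. -/
def tree5 : Tr :=
  (.nbr 0 (.cons (.nbr 1 (.cons (.nbr 2 (.cons (.nbr 3 (.cons (.nbr 4 (.cons (.adj 5 7 (.adj 5 8 (.adj 6 8 (.adj 6 9 (.adj 7 9 (.rel 5 6 (.rel 5 7
  (.rel 5 8 (.rel 5 9 (.rel 6 7 (.rel 6 8 (.rel 6 9 (.rel 7 8 (.rel 7 9 (.rel 8 9 .clean (.cons (.nbr 8 (.cons (.nbr 9 (.cons (.cert 8095 [.sav 9 0,
  .sav 2 0, .last 0, .del 7, .del 12, .sav 8 11, .sav 4 1, .last 1, .last 3, .last 11, .last 10]) .nil)) .nil)) .nil)) (.cons (.cert 1983 [.sav 1 7,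
  .sav 2 7, .last 7, .del 8, .del 5, .sav 4 10, .last 10, .last 9, .last 3, .last 0]) .nil)) (.cons (.nbr 7 (.cons (.nbr 8 (.cons (.cert 8095 [.sav 4
  1, .sav 7 1, .last 1, .del 9, .del 11, .sav 8 12, .sav 2 0, .last 0, .last 3, .last 12, .last 10]) .nil)) .nil)) .nil)) (.cons (.cert 2047 [.sav 2
  6, .del 7, .sav 1 6, .last 6, .del 8, .del 5, .sav 4 10, .last 10, .last 9, .last 0, .last 3]) .nil)) (.cons (.nbr 6 (.cons (.cert 3967 [.sav 4 2,
  .del 5, .del 9, .sav 3 0, .sav 1 0, .last 0, .last 2, .last 6, .last 8, .last 10, .last 11]) .nil)) .nil)) (.cons (.nbr 6 (.cons (.nbr 7 (.cons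
  (.cert 8191 [.sav 4 5, .del 9, .sav 6 0, .del 8, .sav 2 0, .last 0, .last 5, .last 1, .last 3, .last 7, .last 10, .last 11, .last 12]) .nil))
  .nil)) .nil)) (.cons (.nbr 10 (.cons (.cert 4095 [.sav 1 5, .sav 4 5, .last 5, .del 7, .del 8, .del 6, .del 2, .del 3, .sav 9 0, .last 0, .last 10,
  .last 11]) .nil)) .nil)) (.cons (.rel 5 9 (.cert 2047 [.sav 1 5, .del 6, .sav 0 5, .last 5, .del 7, .del 9, .sav 3 10, .last 10, .last 8, .last 4,
  .last 2]) (.cons (.cert 2047 [.sav 0 5, .sav 4 5, .last 5, .sav 8 10, .last 10, .last 9, .last 3, .last 1, .last 2, .last 6, .last 7]) (.cons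
  (.cert 4031 [.sav 0 1, .sav 3 1, .last 1, .del 9, .del 7, .sav 8 2, .last 2, .last 4, .last 5, .last 11, .last 10]) .nil))) .nil)) (.cons (.rel 5 8
  (.cert 1535 [.sav 4 5, .sav 0 5, .last 5, .del 6, .del 8, .sav 2 10, .last 10, .last 7, .last 1, .last 3]) (.cons (.cert 1919 [.sav 2 10, .sav 3
  10, .last 10, .del 9, .del 6, .sav 4 8, .last 8, .last 5, .last 0, .last 1]) (.cons (.cert 3903 [.sav 2 1, .sav 4 1, .last 1, .del 9, .sav 11 3,
  .last 3, .last 0, .last 5, .last 8, .last 10]) .nil))) .nil)) (.cons (.rel 5 7 (.rel 5 8 (.rel 5 9 (.nbr 10 (.cons (.cert 4095 [.sav 4 5, .sav 1 5,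
  .last 5, .del 7, .del 8, .del 9, .del 3, .del 2, .sav 6 0, .last 0, .last 10, .last 11]) .nil)) (.cons (.cert 1663 [.sav 0 3, .sav 1 3, .last 3,
  .sav 6 2, .last 2, .last 4, .last 9, .last 5, .last 10]) (.cons (.cert 3775 [.sav 3 2, .sav 4 2, .last 2, .del 7, .sav 5 1, .last 1, .last 0, .last
  10, .last 11, .last 9]) .nil))) (.cons (.cert 511 [.sav 0 5, .sav 1 5, .last 5, .del 7, .sav 2 6, .last 6, .last 8, .last 4, .last 3]) (.cons
  (.cert 3711 [.sav 4 2, .sav 1 2, .last 2, .del 9, .sav 11 3, .last 3, .last 0, .last 6, .last 5, .last 10]) .nil))) (.cons (.cert 1279 [.sav 0 3,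
  .sav 2 3, .last 3, .sav 5 4, .last 4, .last 1, .last 7, .last 6, .last 10]) (.cons (.rel 5 8 (.cert 4095 [.sav 0 1, .del 9, .del 8, .sav 7 3, .sav
  2 3, .last 3, .last 1, .last 4, .last 5, .last 6, .last 10, .last 11]) (.cons (.cert 3839 [.sav 2 11, .sav 0 11, .last 11, .sav 1 3, .last 3, .last
  7, .last 5, .last 4, .last 9, .last 10, .last 6]) (.cons (.cert 1535 [.sav 0 4, .sav 1 4, .last 4, .sav 8 2, .last 2, .last 3, .last 7, .last 5,
  .last 6, .last 10]) .nil))) .nil))) .nil)) (.rel 5 6 (.rel 5 7 (.rel 5 8 (.rel 5 9 (.nbr 7 (.cons (.nbr 9 (.cons (.cert 4095 [.sav 1 5, .del 6,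
  .sav 3 0, .sav 9 0, .last 0, .last 5, .last 4, .last 2, .last 7, .last 8, .last 10, .last 11]) .nil)) .nil)) (.cons (.cert 959 [.sav 1 5, .sav 9 5,
  .last 5, .sav 2 0, .last 0, .last 4, .last 3, .last 7, .last 8]) .nil)) (.cons (.cert 1983 [.sav 0 5, .sav 2 1, .sav 3 1, .last 1, .last 5, .last
  4, .last 7, .last 8, .last 9, .last 10]) .nil)) (.cons (.cert 1951 [.sav 0 1, .sav 3 1, .last 1, .del 8, .sav 7 4, .last 4, .last 2, .last 9, .last
  10]) .nil)) (.cons (.rel 5 7 (.nbr 5 (.cons (.cert 4031 [.sav 0 2, .del 11, .del 10, .del 5, .sav 7 1, .sav 4 1, .last 1, .last 2, .last 3, .last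
  8, .last 9]) .nil)) (.cons (.cert 1791 [.sav 1 3, .sav 0 3, .last 3, .sav 2 4, .last 4, .last 7, .last 5, .last 6, .last 9, .last 10]) (.cons
  (.cert 3071 [.sav 0 6, .sav 2 6, .last 6, .sav 7 1, .last 1, .last 5, .last 4, .last 3, .last 8, .last 9, .last 11]) .nil))) .nil))) (.adj 7 9
  (.rel 5 6 (.rel 5 7 (.rel 5 8 (.rel 5 9 (.nbr 6 (.cons (.nbr 9 (.cons (.cert 4063 [.sav 6 0, .sav 3 0, .last 0, .del 7, .del 8, .del 11, .del 10,
  .sav 1 2, .last 2, .last 4, .last 9]) .nil)) .nil)) (.cons (.cert 1663 [.sav 0 3, .sav 4 3, .last 3, .sav 6 2, .last 2, .last 1, .last 9, .last 5,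
  .last 10]) .nil)) (.cons (.nbr 5 (.cons (.cert 4031 [.sav 1 2, .del 7, .sav 4 2, .last 2, .del 9, .sav 0 3, .last 3, .last 8, .last 10, .last 5,
  .last 11]) .nil)) .nil)) (.cons (.rel 5 8 (.cert 2047 [.sav 0 5, .sav 4 5, .last 5, .del 8, .del 6, .del 9, .sav 2 10, .last 10, .last 7, .last 1,
  .last 3]) (.cons (.cert 2047 [.sav 0 10, .sav 2 10, .last 10, .sav 1 6, .del 6, .del 9, .sav 8 3, .last 3, .last 7, .last 5, .last 4]) (.cons
  (.cert 3455 [.sav 4 3, .sav 0 3, .last 3, .del 6, .sav 5 1, .last 1, .last 2, .last 8, .last 11, .last 10]) .nil))) .nil)) (.cons (.cert 2047 [.del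
  8, .del 7, .sav 4 3, .sav 1 3, .last 3, .sav 6 2, .last 2, .last 0, .last 9, .last 10, .last 5]) .nil)) (.cert 991 [.sav 1 0, .sav 2 0, .last 0,
  .del 7, .del 8, .sav 4 3, .last 3, .last 9, .last 6]))) (.adj 6 9 (.adj 7 9 (.rel 5 6 (.rel 5 7 (.rel 5 8 (.nbr 6 (.cons (.nbr 8 (.cons (.cert 4095
  [.sav 4 5, .del 9, .sav 2 0, .sav 6 0, .last 0, .last 5, .last 1, .last 3, .last 7, .last 8, .last 10, .last 11]) .nil)) .nil)) (.cons (.cert 1407
  [.sav 4 5, .sav 0 5, .last 5, .sav 3 10, .last 10, .last 8, .last 1, .last 2, .last 6]) .nil)) (.cons (.nbr 5 (.cons (.cert 4095 [.sav 0 1, .del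
  11, .del 10, .del 5, .del 9, .sav 8 4, .sav 2 4, .last 4, .last 1, .last 3, .last 6, .last 7]) .nil)) .nil)) (.cons (.cert 1407 [.sav 0 3, .sav 1
  3, .last 3, .del 5, .del 10, .sav 2 6, .last 6, .last 8, .last 4]) .nil)) (.nbr 6 (.cons (.nbr 8 (.cons (.cert 4095 [.del 11, .sav 1 3, .del 5,
  .del 10, .sav 4 0, .sav 2 0, .last 0, .last 3, .last 6, .last 8, .last 9, .last 7]) .nil)) .nil))) (.adj 7 9 (.cert 1023 [.sav 0 5, .sav 3 6, .del
  7, .sav 8 2, .sav 4 2, .last 2, .last 6, .last 1, .last 5, .last 9]) (.cert 959 [.sav 3 0, .sav 1 2, .del 5, .sav 4 0, .last 0, .last 2, .last 9,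
  .last 7, .last 8])))) (.adj 6 8 (.adj 6 9 (.adj 7 9 (.rel 5 6 (.rel 5 7 (.rel 5 9 (.nbr 5 (.cons (.nbr 8 (.cons (.cert 3583 [.del 11, .sav 2 4,
  .del 6, .del 7, .sav 3 1, .sav 0 1, .last 1, .last 4, .last 5, .last 8, .last 10]) .nil)) .nil)) (.cons (.cert 1855 [.sav 3 2, .sav 0 2, .last 2,
  .sav 5 1, .last 1, .last 4, .last 8, .last 10, .last 9]) .nil)) (.cons (.cert 1855 [.sav 5 1, .sav 4 1, .last 1, .del 9, .sav 2 3, .last 3, .last
  0, .last 8, .last 10]) .nil)) (.cons (.cert 1535 [.sav 1 4, .del 7, .sav 8 3, .sav 0 3, .last 3, .last 4, .last 2, .last 5, .last 6, .last 10])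
  .nil)) (.nbr 5 (.cons (.nbr 8 (.cons (.cert 4095 [.del 11, .sav 0 3, .del 6, .del 10, .sav 2 1, .sav 4 1, .last 1, .last 3, .last 5, .last 7, .last
  8, .last 9]) .nil)) .nil))) (.adj 7 9 (.nbr 8 (.cons (.cert 2047 [.sav 3 0, .del 10, .del 7, .sav 1 2, .sav 4 2, .last 2, .last 0, .last 6, .last
  8, .last 5, .last 9]) .nil)) (.cert 959 [.sav 1 9, .sav 3 9, .last 9, .sav 4 7, .last 7, .last 2, .last 0, .last 8, .last 5]))) (.adj 6 9 (.adj 7 9
  (.cert 511 [.sav 0 4, .sav 3 4, .last 4, .del 6, .del 7, .sav 1 2, .last 2, .last 8, .last 5]) (.cert 959 [.sav 3 7, .sav 4 7, .last 7, .sav 0 9,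
  .last 9, .last 2, .last 1, .last 8, .last 5])) (.adj 7 9 (.cert 959 [.sav 0 2, .sav 1 8, .del 7, .sav 3 2, .last 2, .last 8, .last 4, .last 5,
  .last 9]) (.cert 959 [.sav 1 7, .sav 3 7, .last 7, .sav 4 2, .last 2, .last 9, .last 0, .last 8, .last 5]))))) (.adj 5 8 (.adj 6 8 (.adj 6 9 (.adj
  7 9 (.rel 5 6 (.rel 5 8 (.nbr 5 (.cons (.cert 2047 [.del 6, .sav 4 1, .del 9, .del 8, .sav 2 3, .sav 7 3, .last 3, .last 1, .last 0, .last 5, .last
  10]) .nil)) (.cons (.cert 1983 [.sav 2 1, .sav 3 1, .last 1, .del 9, .sav 5 0, .last 0, .last 4, .last 7, .last 10, .last 8]) .nil)) (.cons (.cert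
  2047 [.del 9, .sav 2 3, .del 8, .sav 1 3, .last 3, .sav 5 4, .last 4, .last 0, .last 7, .last 10, .last 6]) .nil)) (.cert 959 [.sav 0 1, .sav 2 1,
  .last 1, .del 8, .sav 4 5, .last 5, .last 7, .last 3, .last 9])) (.adj 7 9 (.nbr 7 (.cons (.cert 2047 [.sav 2 0, .del 10, .del 7, .del 8, .sav 9 3,
  .sav 1 3, .last 3, .last 0, .last 4, .last 5, .last 6]) .nil)) (.cert 511 [.sav 2 1, .sav 7 3, .del 8, .sav 0 3, .last 3, .last 1, .last 4, .last
  5, .last 6]))) (.adj 6 9 (.adj 7 9 (.nbr 5 (.cons (.cert 2047 [.sav 0 2, .del 9, .del 10, .sav 3 4, .sav 1 4, .last 4, .last 2, .last 5, .last 7,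
  .last 8, .last 6]) .nil)) (.cert 1023 [.sav 1 6, .sav 2 6, .last 6, .sav 4 8, .last 8, .last 3, .last 0, .last 7, .last 5, .last 9])) (.cert 511
  [.sav 4 5, .sav 1 5, .last 5, .sav 2 0, .last 0, .last 7, .last 3, .last 6, .last 8]))) (.adj 6 8 (.adj 6 9 (.adj 7 9 (.cert 959 [.sav 5 1, .sav 0
  1, .last 1, .del 8, .del 9, .sav 2 4, .last 4, .last 3, .last 7]) (.cert 1023 [.sav 2 6, .sav 5 1, .sav 0 7, .del 6, .sav 3 1, .last 1, .last 7,
  .last 4, .last 8, .last 9])) (.cert 1023 [.sav 0 1, .sav 2 6, .del 8, .del 7, .sav 4 6, .last 6, .last 1, .last 9, .last 3, .last 5])) (.adj 6 9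
  (.adj 7 9 (.cert 1023 [.sav 3 9, .sav 1 4, .sav 0 5, .del 9, .sav 2 4, .last 4, .last 5, .last 8, .last 6, .last 7]) (.cert 1023 [.sav 2 6, .sav 0
  6, .last 6, .sav 5 1, .last 1, .last 3, .last 4, .last 7, .last 8, .last 9])) (.adj 7 9 (.cert 959 [.sav 3 9, .sav 8 9, .last 9, .sav 0 4, .last 4,
  .last 1, .last 2, .last 5, .last 7]) .pet))))) .nil)) .nil)) .nil)) .nil)) .nil))

/-- The tree for girth 6. -/
def tree6 : Tr :=
  (.nbr 0 (.cons (.nbr 1 (.cons (.nbr 2 (.cons (.nbr 3 (.cons (.nbr 4 (.cons (.nbr 5 (.cons (.adj 6 9 (.adj 7 10 (.adj 8 11 (.rel 6 8 (.rel 6 9 (.rel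
  6 10 (.rel 7 9 (.rel 7 10 (.rel 7 11 (.rel 8 10 (.rel 8 11 (.rel 9 11 .clean (.cons (.cert 7871 [.sav 0 11, .sav 5 11, .last 11, .del 7, .del 1,
  .del 10, .sav 3 12, .last 12, .last 9, .last 4, .last 2]) .nil)) (.cons (.cert 8191 [.sav 3 8, .del 9, .del 10, .sav 11 4, .sav 5 4, .last 4, .del
  12, .del 6, .sav 1 8, .last 8, .last 2, .last 0, .last 7]) .nil)) (.cons (.cert 8127 [.sav 0 7, .del 11, .sav 10 5, .sav 4 5, .last 5, .del 9, .del
  12, .sav 2 7, .last 7, .last 1, .last 3, .last 8]) .nil)) (.cons (.cert 7423 [.sav 4 3, .sav 7 2, .sav 0 2, .last 2, .last 3, .last 1, .last 5,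
  .last 6, .last 10, .last 12, .last 11]) .nil)) (.cons (.cert 8191 [.sav 0 7, .del 6, .del 11, .sav 10 5, .sav 4 5, .last 5, .del 12, .del 9, .sav 2
  7, .last 7, .last 1, .last 3, .last 8]) .nil)) (.cons (.cert 6079 [.sav 4 9, .del 10, .sav 3 9, .last 9, .del 5, .del 8, .sav 1 12, .last 12, .last
  7, .last 2, .last 0]) .nil)) (.cons (.cert 7423 [.sav 1 3, .sav 5 3, .last 3, .del 7, .del 11, .sav 0 2, .last 2, .last 4, .last 10, .last 12,
  .last 6]) .nil)) (.cons (.cert 8191 [.sav 5 6, .del 11, .del 10, .sav 9 4, .sav 3 4, .last 4, .del 12, .del 8, .sav 1 6, .last 6, .last 0, .last 2,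
  .last 7]) .nil)) (.cons (.cert 8191 [.del 11, .sav 3 8, .del 9, .del 10, .sav 2 8, .last 8, .del 4, .del 7, .sav 0 12, .last 12, .last 6, .last 1,
  .last 5]) .nil)) (.cert 3007 [.sav 1 8, .del 7, .sav 2 8, .last 8, .del 9, .sav 4 3, .last 3, .last 5, .last 11, .last 0])) (.cert 3839 [.sav 5 10,
  .del 6, .del 11, .sav 4 10, .last 10, .del 9, .sav 2 3, .last 3, .last 1, .last 7, .last 0])) (.cert 3839 [.sav 5 6, .del 11, .del 10, .sav 0 6,
  .last 6, .del 7, .sav 2 1, .last 1, .last 3, .last 9, .last 4])) .nil)) .nil)) .nil)) .nil)) .nil)) .nil))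

/-- The tree for girth 7. -/
def tree7 : Tr :=
  (.nbr 0 (.cons (.nbr 1 (.cons (.nbr 2 (.cons (.nbr 3 (.cons (.nbr 4 (.cons (.nbr 5 (.cons (.nbr 6 (.cons (.rel 7 10 (.rel 7 11 (.rel 8 11 (.rel 8
  12 (.rel 9 12 (.rel 9 13 (.rel 10 13 .clean (.cons (.cert 26239 [.sav 10 14, .sav 5 13, .sav 3 14, .last 14, .last 13, .last 6, .last 0, .last 1,
  .last 2, .last 4, .last 9]) .nil)) (.cons (.cert 25471 [.sav 5 4, .sav 6 4, .last 4, .sav 1 3, .last 3, .last 2, .last 9, .last 14, .last 13, .last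
  0, .last 8]) .nil)) (.cons (.cert 31615 [.sav 0 8, .sav 12 14, .del 13, .sav 5 14, .last 14, .del 11, .sav 4 6, .del 6, .sav 1 8, .last 8, .last 2,
  .last 9, .last 3]) .nil)) (.cons (.cert 29055 [.sav 2 3, .sav 1 3, .last 3, .sav 6 4, .last 4, .last 5, .last 12, .last 14, .last 8, .last 0, .last
  13]) .nil)) (.cons (.cert 23423 [.sav 11 14, .sav 4 14, .last 14, .del 12, .sav 2 8, .last 8, .last 1, .last 0, .last 6, .last 5, .last 3, .last
  9]) .nil)) (.cons (.cert 22783 [.sav 1 2, .sav 0 2, .last 2, .sav 5 3, .last 3, .last 4, .last 11, .last 14, .last 7, .last 6, .last 12]) .nil))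
  (.cons (.cert 18175 [.sav 6 5, .sav 0 5, .last 5, .sav 2 4, .last 4, .last 3, .last 10, .last 14, .last 7, .last 1, .last 9]) .nil)) .nil)) .nil))
  .nil)) .nil)) .nil)) .nil)) .nil))

/-- The tree for girth 8. -/
def tree8 : Tr :=
  (.nbr 0 (.cons (.nbr 1 (.cons (.nbr 2 (.cons (.nbr 3 (.cons (.nbr 4 (.cons (.nbr 5 (.cons (.nbr 6 (.cons (.nbr 7 (.cons (.rel 8 12 (.rel 9 13 (.rel
  10 14 (.rel 11 15 .clean (.cons (.cert 116991 [.sav 2 1, .sav 3 1, .last 1, .sav 5 14, .sav 11 4, .del 4, .sav 6 14, .last 14, .last 7, .last 0,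
  .last 15, .last 16]) .nil)) (.cons (.cert 130815 [.sav 1 9, .sav 0 9, .last 9, .sav 4 2, .last 2, .del 15, .del 12, .del 11, .del 13, .sav 5 3,
  .last 3, .last 10, .last 16, .last 14, .last 6, .last 7]) .nil)) (.cons (.cert 127999 [.sav 4 12, .sav 3 12, .last 12, .sav 7 5, .last 5, .del 15,
  .del 8, .del 14, .sav 0 6, .last 6, .last 13, .last 16, .last 9, .last 1, .last 2]) .nil)) (.cons (.cert 78335 [.sav 1 2, .sav 0 2, .last 2, .sav 6
  13, .sav 8 7, .del 7, .sav 5 13, .last 13, .last 4, .last 3, .last 12, .last 16]) .nil)) .nil)) .nil)) .nil)) .nil)) .nil)) .nil)) .nil)) .nil))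

theorem tree3_ok : check 3 tree3 [root 3] = true := by decide +kernel

theorem tree4_ok : check 4 tree4 [root 4] = true := by decide +kernel

theorem tree5_ok : check 5 tree5 [root 5] = true := by decide +kernel

theorem tree6_ok : check 6 tree6 [root 6] = true := by decide +kernel

theorem tree7_ok : check 7 tree7 [root 7] = true := by decide +kernel

theorem tree8_ok : check 8 tree8 [root 8] = true := by decide +kernel

end Pool.Agent.helper62.DP8
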