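import Pool.Agent.helper62.DP8.Spec

set_option autoImplicit false

namespace Pool.Agent.helper62.DP8

theorem BB3 : BB3_stmt := by
  intro g W a R t hC hT H1 H2
  have g5 := hC.g5
  have key : ∀ i, ∃ x, x ∈ a i ∧ t (i + 1) true x := by
    intro i
    obtain ⟨x, hx, ht⟩ := hT.ex (i + g - 1) (i + g - 1 + 2) true (by omega) (by omega)
    have e1 : i + g - 1 + 1 = i + g := by omega
    have e2 : i + g - 1 + 2 = (i + 1) + g := by omega
    rw [e1, hC.pa] at hx
    rw [e2, hC.pt] at ht
    exact ⟨x, hx, ht⟩
  have hpa : ∀ k i, a (i + k * g) = a i := by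
    intro k
    induction k with
    | zero => intro i; simp
    | succ k ih =>
      intro i
      have : i + (k + 1) * g = (i + k * g) + g := by ring
      rw [this, hC.pa, ih]
  have hpt : ∀ k i s x, t (i + k * g) s x ↔ t i s x := by
    intro k
    induction k with
    | zero => intro i s x; simp
    | succ k ih =>
      intro i s x
      have : i + (k + 1) * g = (i + k * g) + g := by ring
      rw [this, hC.pt, ih]
  choose f0 hf0 hf1 using key
  set f : ℕ → W := fun i => f0 (i % g) with hf
  have fper : ∀ i, f (i + g) = f i := by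
    intro i
    simp [hf]
  have dm : ∀ i, i % g + (i / g) * g = i := by
    intro i
    have := Nat.mod_add_div i g
    rw [mul_comm] at this
    exact this
  have fmem : ∀ i, f i ∈ a i := by
    intro i
    have h1 := hf0 (i % g)
    have h2 := hpa (i / g) (i % g)
    rw [dm] at h2
    rw [h2]
    exact h1
  have ft : ∀ i, t (i + 1) true (f i) := by
    intro i
    have h1 := hf1 (i % g)
    have h2 := hpt (i / g) (i % g + 1) true (f i)
    have e : i % g + 1 + (i / g) * g = i + 1 := by
      have := dm i
      omega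
    rw [e] at h2
    rw [h2]
    exact h1
  have main : ∀ i, f i ∈ a (i + g - 1 + 1) ∧ f (i + 1) ∈ a (i + g - 1 + 2) ∧ f (i + 2) ∈ a (i + g - 1 + 3) ∧
      t (i + g - 1 + 2) true (f i) ∧ t (i + g - 1 + 3) true (f (i + 1)) ∧ t (i + g - 1 + 4) true (f (i + 2)) := by
    intro i
    have e1 : i + g - 1 + 1 = i + g := by omega
    have e2 : i + g - 1 + 2 = (i + 1) + g := by omega
    have e3 : i + g - 1 + 3 = (i + 2) + g := by omega
    have e4 : i + g - 1 + 4 = (i + 2 + 1) + g := by omega
    rw [e1, e2, e3, e4, hC.pa, hC.pa, hC.pa, hC.pt, hC.pt, hC.pt]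
    exact ⟨fmem i, fmem (i + 1), fmem (i + 2), ft i, ft (i + 1), ft (i + 2)⟩
  refine ⟨f, fper, fmem, ?_, ?_⟩
  · intro i
    obtain ⟨m0, m1, m2, t0, t1, t2⟩ := main i
    set p := i + g - 1 with hp
    constructor
    · intro hR
      obtain ⟨y, hy, hty⟩ := hT.ex (p + 1) (p + 2) true (by omega) (by omega)
      have hy' : y ∈ a (p + 2) := hy
      have hRy := H1 p true (f i) m0 y hy' t0 hty
      have e := hC.mat (p + 1) (p + 2) (by omega) (by omega) (f i) m0 (f (i + 1)) m1 y hy' hR hRy
      rw [← e] at hty
      have := (hT.un (p + 1) (f (i + 1)) m1 (p + 2) (p + 3) true true (by omega) (by omega) (by omega) (by omega) hty t1).1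
      omega
    · intro hR
      obtain ⟨z, hz, htz⟩ := hT.ex (p + 2) (p + 2) true (by omega) (by omega)
      have hz' : z ∈ a (p + 3) := hz
      have hRz := H2 p true (f i) m0 z hz' t0 htz
      have e := hC.mat (p + 1) (p + 3) (by omega) (by omega) (f i) m0 (f (i + 2)) m2 z hz' hR hRz
      rw [← e] at htz
      have := (hT.un (p + 2) (f (i + 2)) m2 (p + 2) (p + 4) true true (by omega) (by omega) (by omega) (by omega) htz t2).1
      omega
  · intro i
    obtain ⟨m0, m1, m2, t0, t1, t2⟩ := main i
    have e2 : i + g - 1 + 2 = (i + 1) + g := by omega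
    have hs : ∀ x, t (i + 1) false x → t (i + g - 1 + 2) false x := by
      intro x hx
      rw [e2, hC.pt]
      exact hx
    set p := i + g - 1 with hp
    refine ⟨false, ?_, ?_, ?_⟩
    · intro h
      have := (hT.un p (f i) m0 (p + 2) (p + 2) false true (by omega) (by omega) (by omega) (by omega) (hs _ h) t0).2
      simp at this
    · intro h
      have := (hT.un (p + 1) (f (i + 1)) m1 (p + 2) (p + 3) false true (by omega) (by omega) (by omega) (by omega) (hs _ h) t1).1
      omega
    · intro h
      have := (hT.un (p + 2) (f (i + 2)) m2 (p + 2) (p + 4) false true (by omega) (by omega) (by omega) (by omega) (hs _ h) t2).1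
      omega

end Pool.Agent.helper62.DP8
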