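import Pool.Agent.helper62.DP8.Spec

set_option autoImplicit false

namespace Pool.Agent.helper62.DP8

theorem FIN (hSUB : SUB_stmt) : FIN_stmt := by
  intro V _ G h3 hP
  have hG : Goal G := hSUB V G h3 hP
  apply Nat.sInf_le
  refine ⟨by norm_num, ?_⟩
  intro W M L hc
  rcases isEmpty_or_nonempty V with hV | hV
  · exact ⟨fun v => (hV.false v).elim, fun v => (hV.false v).elim, fun v => (hV.false v).elim⟩
  obtain ⟨v0⟩ := hV
  have hne : (L v0).Nonempty := by
    rw [← Finset.card_pos, hc.card v0]; norm_num
  obtain ⟨w0, hw0⟩ := hne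
  obtain ⟨f, hf1, hf2⟩ := hG W M.Adj L ⟨w0⟩
    { symm := fun a b h => h.symm
      mat := by
        intro u v huv a ha b hb b' hb' h1 h2
        by_cases hadj : (sq G).Adj u v
        · exact hc.matching u v hadj a ha b hb b' hb' h1 h2
        · exact absurd h1 (hc.nonadj u v huv hadj a ha b hb)
      non := fun u v huv hadj a ha b hb => hc.nonadj u v huv hadj a ha b hb }
    (fun v => (hc.card v).ge)
  refine ⟨f, hf1, ?_⟩
  intro u v h
  by_cases huv : u = v
  · subst huv
    exact M.loopless.irrefl _ h
  · exact hf2 u v huv h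

end Pool.Agent.helper62.DP8
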