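import Pool.Agent.helper62.DP8.Spec

set_option autoImplicit false

namespace Pool.Agent.helper62.DP8

theorem SUB (hNCU : NCU_stmt) (hMAI : MAI_stmt) (hCOM : COM_stmt) : SUB_stmt := by
  classical
  intro V _ G hG hP
  apply hCOM V G
  intro c
  have hconn : (G.induce c.supp).Connected := c.connected_toSimpleGraph
  have hsub : Sub3 (G.induce c.supp) := by
    intro x
    have h1 : ((G.induce c.supp).neighborSet x).ncard = ((fun y : c.supp => (y : V)) '' ((G.induce c.supp).neighborSet x)).ncard :=
      (Set.ncard_image_of_injective _ Subtype.val_injective).symm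
    rw [h1]
    refine le_trans (Set.ncard_le_ncard ?_ (Set.toFinite _)) (hG x.1)
    rintro y ⟨z, hz, rfl⟩
    exact hz
  have hpet : IsEmpty (petersen ↪g (G.induce c.supp)) := by
    refine ⟨fun e => hP.false ?_⟩
    exact (SimpleGraph.Embedding.induce c.supp).comp e
  by_cases hc : Cub (G.induce c.supp)
  · exact hMAI c.supp (G.induce c.supp) hconn hc hpet
  · unfold Cub at hc
    push Not at hc
    obtain ⟨x, hx⟩ := hc
    refine hNCU c.supp (G.induce c.supp) hconn hsub ⟨x, ?_⟩
    have := hsub x
    omega

end Pool.Agent.helper62.DP8
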