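import Pool.Agent.helper51.DP8.COL
import Pool.Agent.helper90.DP8.DGE
import Pool.Agent.helper57.DP8.MON
import Pool.Agent.helper13.DP8.DEL
import Pool.Agent.helper11.DP8.SAV
import Pool.Agent.helper93.DP8.DBL
import Pool.Agent.helper26.DP8.LST
import Pool.Agent.helper6.DP8.EXT
import Pool.Agent.helper87.DP8.DGB
import Pool.Agent.helper53.DP8.DG9
import Pool.Agent.helper37.DP8.GOA
import Pool.Agent.helper99.DP8.NCU
import Pool.Agent.helper29.DP8.PIG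
import Pool.Agent.helper30.DP8.SHF
import Pool.Agent.helper82.DP8.CLO
import Pool.Agent.helper63.DP8.AA1
import Pool.Agent.helper16.DP8.AA2
import Pool.Agent.helper25.DP8.PRT
import Pool.Agent.helper21.DP8.BCH
import Pool.Agent.helper23.DP8.BFI
import Pool.Agent.helper76.DP8.BB1
import Pool.Agent.helper15.DP8.BB2
import Pool.Agent.helper62.DP8.BB3
import Pool.Agent.helper67.DP8.ABC
import Pool.Agent.helper31.DP8.ABH
import Pool.Agent.helper61.DP8.BIT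
import Pool.Agent.helper72.DP8.ORS
import Pool.Agent.helper81.DP8.TAB
import Pool.Agent.helper25.DP8.WTB
import Pool.Agent.helper59.DP8.TRR
import Pool.Agent.helper72.DP8.TDD
import Pool.Agent.helper91.DP8.BAL
import Pool.Agent.helper28.DP8.SPP
import Pool.Agent.helper73.DP8.SOO
import Pool.Agent.helper55.DP8.SKK
import Pool.Agent.helper38.DP8.SMM
import Pool.Agent.helper33.DP8.UBD
import Pool.Agent.helper34.DP8.RUN
import Pool.Agent.helper98.DP8.CRT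
import Pool.Agent.helper18.DP8.OPT
import Pool.Agent.helper49.DP8.NBS
import Pool.Agent.helper1.DP8.CLN
import Pool.Agent.helper95.DP8.PTS
import Pool.Agent.helper65.DP8.CHK
import Pool.Agent.helper71.DP8.GP2
import Pool.Agent.helper84.DP8.ARC
import Pool.Agent.helper8.DP8.CHD
import Pool.Agent.helper77.DP8.PEN
import Pool.Agent.helper87.DP8.CLP
import Pool.Agent.helper92.DP8.BIG
import Pool.Agent.helper19.DP8.CYC
import Pool.Agent.helper24.DP8.CYR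
import Pool.Agent.helper50.DP8.MAI
import Pool.Agent.helper58.DP8.COM
import Pool.Agent.helper62.DP8.SUB
import Pool.Agent.helper62.DP8.FIN

set_option autoImplicit false

namespace Pool.Agent.helper62.DP8

theorem COL_pf : COL_stmt := COL
theorem DGE_pf : DGE_stmt := DGE
theorem MON_pf : MON_stmt := MON
theorem DEL_pf : DEL_stmt := DEL COL_pf DGE_pf
theorem SAV_pf : SAV_stmt := SAV COL_pf DGE_pf
theorem DBL_pf : DBL_stmt := DBL COL_pf DGE_pf
theorem LST_pf : LST_stmt := LST DGE_pf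
theorem EXT_pf : EXT_stmt := EXT DEL_pf
theorem DGB_pf : DGB_stmt := DGB
theorem DG9_pf : DG9_stmt := DG9 DGB_pf
theorem GOA_pf : GOA_stmt := GOA
theorem NCU_pf : NCU_stmt := NCU MON_pf LST_pf EXT_pf DGB_pf DG9_pf GOA_pf
theorem PIG_pf : PIG_stmt := PIG
theorem SHF_pf : SHF_stmt := SHF
theorem CLO_pf : CLO_stmt := CLO
theorem AA1_pf : AA1_stmt := AA1 PIG_pf
theorem AA2_pf : AA2_stmt := AA2 PIG_pf CLO_pf
theorem PRT_pf : PRT_stmt := PRT
theorem BCH_pf : BCH_stmt := BCH PIG_pf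
theorem BFI_pf : BFI_stmt := BFI PIG_pf CLO_pf
theorem BB1_pf : BB1_stmt := BB1
theorem BB2_pf : BB2_stmt := BB2
theorem BB3_pf : BB3_stmt := BB3
theorem ABC_pf : ABC_stmt := ABC SHF_pf AA1_pf AA2_pf PRT_pf BCH_pf BFI_pf BB1_pf BB2_pf BB3_pf
theorem ABH_pf : ABH_stmt := ABH ABC_pf
theorem BIT_pf : BIT_stmt := BIT
theorem ORS_pf : ORS_stmt := ORS BIT_pf
theorem TAB_pf : TAB_stmt := TAB BIT_pf
theorem WTB_pf : WTB_stmt := WTB
theorem TRR_pf : TRR_stmt := TRR TAB_pf WTB_pf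
theorem TDD_pf : TDD_stmt := TDD ORS_pf TAB_pf WTB_pf TRR_pf
theorem BAL_pf : BAL_stmt := BAL BIT_pf ORS_pf TAB_pf WTB_pf TRR_pf
theorem SPP_pf : SPP_stmt := SPP BIT_pf ORS_pf TAB_pf WTB_pf TRR_pf TDD_pf BAL_pf
theorem SOO_pf : SOO_stmt := SOO BIT_pf TAB_pf WTB_pf TRR_pf TDD_pf BAL_pf
theorem SKK_pf : SKK_stmt := SKK BIT_pf ORS_pf TAB_pf WTB_pf TRR_pf
theorem SMM_pf : SMM_stmt := SMM BIT_pf ORS_pf TAB_pf WTB_pf TRR_pf TDD_pf SPP_pf SOO_pf
theorem UBD_pf : UBD_stmt := UBD BIT_pf ORS_pf TAB_pf WTB_pf TRR_pf TDD_pf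
theorem RUN_pf : RUN_stmt := RUN BIT_pf ORS_pf MON_pf DEL_pf SAV_pf DBL_pf LST_pf
theorem CRT_pf : CRT_stmt := CRT BIT_pf ORS_pf TAB_pf TRR_pf SKK_pf SMM_pf UBD_pf RUN_pf EXT_pf DG9_pf GOA_pf
theorem OPT_pf : OPT_stmt := OPT WTB_pf SPP_pf SOO_pf
theorem NBS_pf : NBS_stmt := NBS TDD_pf SPP_pf
theorem CLN_pf : CLN_stmt := CLN BIT_pf ORS_pf TRR_pf SMM_pf ABH_pf EXT_pf DG9_pf GOA_pf
theorem PTS_pf : PTS_stmt := PTS TRR_pf TDD_pf
theorem CHK_pf : CHK_stmt := CHK WTB_pf CRT_pf OPT_pf NBS_pf CLN_pf PTS_pf SPP_pf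
theorem GP2_pf : GP2_stmt := GP2
theorem ARC_pf : ARC_stmt := ARC GP2_pf
theorem CHD_pf : CHD_stmt := CHD GP2_pf
theorem PEN_pf : PEN_stmt := PEN CHD_pf
theorem CLP_pf : CLP_stmt := CLP ARC_pf
theorem BIG_pf : BIG_stmt := BIG CHD_pf PEN_pf CLP_pf ABH_pf EXT_pf DG9_pf GOA_pf
theorem CYC_pf : CYC_stmt := CYC
theorem CYR_pf : CYR_stmt := CYR
theorem MAI_pf : MAI_stmt := MAI CHK_pf BIG_pf CYC_pf CYR_pf
theorem COM_pf : COM_stmt := COM
theorem SUB_pf : SUB_stmt := SUB NCU_pf MAI_pf COM_pf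
theorem FIN_pf : FIN_stmt := FIN SUB_pf

end Pool.Agent.helper62.DP8
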