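import Mathlib

/-!
# Project sq8: (MP_e3efbc_co): the checker

A state describes partial knowledge about a cubic graph `G` of girth at least `g`: `n ≤ 32` distinct labelled vertices, a list `A` of pairs
which are edges, a list `NA` of pairs which are not edges, a list `NR` of pairs which are at distance at least three. A tree `Tr` is a case
analysis whose leaves are certificates of weak degeneracy of the square. Sets of labels are bit masks, tables of masks are numbers in base
`2 ^ 32`.
-/

set_option autoImplicit false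

namespace Pool.Agent.helper62.DP8

/-- `k n`, but the kernel evaluates `n` first. -/
def force {α : Type} (n : ℕ) (k : ℕ → α) : α :=
  match n with
  | 0 => k 0
  | m + 1 => k (m + 1)

/-- Membership in a mask. -/
def tb (m i : ℕ) : Bool := Nat.beq (Nat.land (Nat.shiftRight m i) 1) 1

/-- Union of the masks `f w`, `w < n`, `w ∈ m`. -/
def orS (m : ℕ) (f : ℕ → ℕ) : ℕ → ℕ
  | 0 => 0
  | k + 1 => bif tb m k then Nat.lor (f k) (orS m f k) else orS m f k

/-- The table of the `f k` (mod `2 ^ 32`), `k < n`. -/
def tab (f : ℕ → ℕ) : ℕ → ℕ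
  | 0 => 0
  | k + 1 => Nat.lor (Nat.shiftLeft (Nat.land (f k) 4294967295) (32 * k)) (tab f k)

/-- Entry of a table. -/
def ent (T x : ℕ) : ℕ := Nat.land (Nat.shiftRight T (32 * x)) 4294967295

/-- Number of elements `< n` of a mask. -/
def cnt (m : ℕ) : ℕ → ℕ
  | 0 => 0
  | k + 1 => bif tb m k then cnt m k + 1 else cnt m k

/-- Set difference of masks. -/
def dif (a b : ℕ) : ℕ := Nat.xor a (Nat.land a b)

/-- The table of a list of pairs (both orders). -/
def rows : List (ℕ × ℕ) → ℕ
  | [] => 0
  | e :: l => Nat.lor (Nat.lor (Nat.shiftLeft 1 (32 * e.1 + e.2)) (Nat.shiftLeft 1 (32 * e.2 + e.1))) (rows l)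

/-- Table of the balls of radius `k`. -/
def ball (n R : ℕ) : ℕ → ℕ
  | 0 => tab (fun x => Nat.shiftLeft 1 x) n
  | k + 1 => force (ball n R k) fun B => tab (fun x => Nat.lor (ent B x) (orS (ent R x) (fun y => ent B y) n)) n

/-- A state. -/
structure St where
  n : ℕ
  A : List (ℕ × ℕ)
  NA : List (ℕ × ℕ)
  NR : List (ℕ × ℕ)

/-- The tables of a state: neighbours, degrees, the set of the labels of degree at most two, possible neighbours, possible pairs with a common
unlabelled neighbour, adjacency in the square known and possible. -/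
structure Tb where
  R : ℕ
  D : ℕ
  D2 : ℕ
  P : ℕ
  O : ℕ
  K : ℕ
  M : ℕ

/-- The set of the labels with entry at most two. -/
def low (D : ℕ) : ℕ → ℕ
  | 0 => 0
  | k + 1 => bif Nat.ble (ent D k) 2 then Nat.lor (Nat.shiftLeft 1 k) (low D k) else low D k

/-- Computation of the tables, in continuation passing style. -/
def withTb {α : Type} (g : ℕ) (s : St) (k : Tb → α) : α :=
  force s.n fun n => force (rows s.A) fun R => force (rows s.NA) fun NA => force (rows s.NR) fun NR =>
  force (tab (fun x => cnt (ent R x) n) n) fun D => force (low D n) fun D2 =>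
  force (ball n R (g - 2)) fun B => force (ball n R (g - 3)) fun B' =>
  force (tab (fun x => Nat.lor (ent R x) (bif tb D2 x then
    dif D2 (Nat.lor (Nat.lor (ent NA x) (ent B x)) (Nat.lor (orS (ent NR x) (fun w => ent R w) n) (orS (ent R x) (fun w => ent NR w) n))) else 0)) n) fun P =>
  force (tab (fun x => bif tb D2 x then dif D2 (ent B' x) else 0) n) fun O =>
  force (tab (fun x => dif (Nat.lor (ent R x) (orS (ent R x) (fun w => ent R w) n)) (Nat.shiftLeft 1 x)) n) fun K =>
  force (tab (fun x => dif (Nat.lor (Nat.lor (ent P x) (ent O x)) (orS (ent P x) (fun w => bif tb (ent R x) w || Nat.ble (ent D w) 1 then ent P w else ent R w) n))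
    (Nat.lor (Nat.shiftLeft 1 x) (ent NR x))) n) fun M =>
  k ⟨R, D, D2, P, O, K, M⟩

/-- Moves of a certificate. -/
inductive Mv
  | del (v : ℕ)
  | sav (v w : ℕ)
  | dbl (a b w : ℕ)
  | last (v : ℕ)

/-- Run a certificate: `K`, `M` known and possible adjacency, `T` the set of the remaining labels, `s` the slacks. -/
def run (n K M : ℕ) : List Mv → ℕ → (ℕ → ℕ) → Bool
  | [], T, _ => Nat.beq T 0
  | .del v :: l, T, s => tb T v && Nat.ble 2 (cnt (Nat.land (ent K v) T) n + s v) &&
      force (dif T (Nat.shiftLeft 1 v)) fun T' => run n K M l T' s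
  | .sav v w :: l, T, s => tb T v && tb T w && tb (ent K v) w &&
      Nat.ble (cnt (Nat.land (ent M w) T) n + s w + 1) (cnt (Nat.land (ent K v) T) n + s v) &&
      force (dif T (Nat.shiftLeft 1 v)) fun T' => run n K M l T' (fun i => bif Nat.beq i w then s i + 1 else s i)
  | .dbl a b w :: l, T, s => tb T a && tb T b && tb T w && !(Nat.beq a b) && tb (ent K a) w && tb (ent K b) w && !(tb (ent M a) b) &&
      Nat.ble 2 (cnt (Nat.land (ent K a) T) n + s a) && Nat.ble 2 (cnt (Nat.land (ent K b) T) n + s b) &&
      Nat.ble (cnt (Nat.land (ent M w) T) n + s w + 2) (cnt (Nat.land (ent K a) T) n + s a + (cnt (Nat.land (ent K b) T) n + s b)) &&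
      force (dif T (Nat.lor (Nat.shiftLeft 1 a) (Nat.shiftLeft 1 b))) fun T' => run n K M l T' (fun i => bif Nat.beq i w then s i + 1 else s i)
  | .last v :: l, T, s => tb T v && Nat.ble 2 (s v) &&
      force (dif T (Nat.shiftLeft 1 v)) fun T' => run n K M l T' (fun i => bif tb (ent K v) i then s i + 1 else s i)

/-- All elements of the mask `S` satisfy `p`. -/
def allS (S : ℕ) (p : ℕ → Bool) : ℕ → Bool
  | 0 => true
  | k + 1 => (!(tb S k) || p k) && allS S p k

/-- Sum of the entries `ent D w`, `w ∈ m`. -/
def sumS (m D : ℕ) : ℕ → ℕ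
  | 0 => 0
  | k + 1 => bif tb m k then ent D k + sumS m D k else sumS m D k

/-- The leaf: a certificate for the set `S` (a mask) of labels. Here `9 - s` is the upper bound `cnt K x + 3 (3 - deg x) + Σ (3 - deg w)` of the degree
in the square. -/
def okCert (s : St) (t : Tb) (S : ℕ) (ms : List Mv) : Bool :=
  !(Nat.beq S 0) && Nat.beq (Nat.shiftRight S s.n) 0 && allS S (fun x => !(Nat.beq (Nat.land (ent t.R x) S) 0)) s.n &&
    force (tab (fun x => 9 - (cnt (ent t.K x) s.n + 3 * (3 - ent t.D x) + (3 * ent t.D x - sumS (ent t.R x) t.D s.n))) s.n) fun s0 => run s.n t.K t.M ms S (fun x => ent s0 x)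

/-- New edge. -/
def St.add (s : St) (x y : ℕ) : St := ⟨s.n, (x, y) :: s.A, s.NA, s.NR⟩
/-- Not adjacent. -/
def St.na (s : St) (x y : ℕ) : St := ⟨s.n, s.A, (x, y) :: s.NA, s.NR⟩
/-- Not related. -/
def St.nr (s : St) (x y : ℕ) : St := ⟨s.n, s.A, (x, y) :: s.NA, (x, y) :: s.NR⟩
/-- New vertex with one neighbour. -/
def St.new1 (s : St) (x : ℕ) : St := ⟨s.n + 1, (x, s.n) :: s.A, s.NA, s.NR⟩
/-- New vertex with two neighbours. -/
def St.new2 (s : St) (x y : ℕ) : St := ⟨s.n + 1, (x, s.n) :: (y, s.n) :: s.A, s.NA, s.NR⟩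

/-- Common labelled neighbours `w < k` of `x` and `y`. -/
def optW (g : ℕ) (s : St) (t : Tb) (x y : ℕ) : ℕ → List St
  | 0 => []
  | w + 1 =>
    bif tb (ent t.R x) w then (bif tb (ent t.P w) y then s.add w y :: optW g s t x y w else optW g s t x y w)
    else bif tb (ent t.R y) w then (bif tb (ent t.P x) w then s.add x w :: optW g s t x y w else optW g s t x y w)
    else bif tb (ent t.P x) w && tb (ent t.P w) y && withTb g (s.add x w) (fun t' => tb (ent t'.P w) y)
      then (s.add x w).add w y :: optW g s t x y w else optW g s t x y w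

/-- The possible reasons for `x`, `y` to be related. -/
def opts (g : ℕ) (s : St) (t : Tb) (x y : ℕ) : List St :=
  (bif tb (ent t.P x) y then [s.add x y] else []) ++ optW g s t x y s.n ++ (bif tb (ent t.O x) y then [s.new2 x y] else [])

/-- The possible further neighbours of `x`. -/
def nbrs (s : St) (t : Tb) (x : ℕ) : ℕ → List St
  | 0 => [s.new1 x]
  | y + 1 => bif tb (ent t.P x) y && !(tb (ent t.R x) y) then s.add x y :: nbrs s t x y else nbrs s t x y

/-- `p i` for all `i < n`. -/
def allN (p : ℕ → Bool) : ℕ → Bool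
  | 0 => true
  | k + 1 => p k && allN p k

/-- The state is a cycle of length `g` with all pendants, and the pendants are pairwise far apart. -/
def isClean (g : ℕ) (s : St) (t : Tb) : Bool :=
  Nat.beq s.n (2 * g) && Nat.ble 5 g && allN (fun i => tb (ent t.R i) ((i + 1) % g) && tb (ent t.R i) (g + i)) g &&
  allN (fun i => allN (fun j => Nat.beq i j ||
    (!(tb (ent t.M (g + i)) (g + j)) && (Nat.beq i ((j + 1) % g) || Nat.beq j ((i + 1) % g) ||
    (!(tb (ent t.M (g + i)) j) && (Nat.beq i ((j + 2) % g) || Nat.beq j ((i + 2) % g) || !(tb (ent t.M i) j)))))) g) g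

/-- Table of the Petersen graph: outer cycle `0..4`, spokes `i, i + 5`, inner cycle `i + 5, (i + 2) % 5 + 5`. -/
def petRows : ℕ := rows [(0, 1), (1, 2), (2, 3), (3, 4), (4, 0), (0, 5), (1, 6), (2, 7), (3, 8), (4, 9), (5, 7), (6, 8), (7, 9), (8, 5), (9, 6)]

/-- The state is the Petersen graph. -/
def isPet (s : St) (t : Tb) : Bool := Nat.beq s.n 10 && Nat.beq t.R petRows

/-- Trees (`nil`, `cons`: lists of trees). -/
inductive Tr
  | nil : Tr
  | cons : Tr → Tr → Tr
  | clean : Tr
  | pet : Tr
  | cert : ℕ → List Mv → Tr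
  | nbr : ℕ → Tr → Tr
  | adj : ℕ → ℕ → Tr → Tr → Tr
  | rel : ℕ → ℕ → Tr → Tr → Tr

/-- The checker. -/
def check (g : ℕ) : Tr → List St → Bool
  | .nil, l => match l with
    | [] => true
    | _ :: _ => false
  | .cons t u, l => match l with
    | [] => false
    | s :: l => check g t [s] && check g u l
  | .clean, l => match l with
    | [s] => withTb g s fun t => isClean g s t
    | _ => false
  | .pet, l => match l with
    | [s] => withTb g s fun t => isPet s t
    | _ => false
  | .cert S ms, l => match l with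
    | [s] => withTb g s fun t => okCert s t S ms
    | _ => false
  | .nbr x u, l => match l with
    | [s] => Nat.blt x s.n && Nat.blt s.n 32 && withTb g s fun t => tb t.D2 x && check g u (nbrs s t x s.n)
    | _ => false
  | .adj x y u1 u2, l => match l with
    | [s] => Nat.blt x s.n && Nat.blt y s.n && !(Nat.beq x y) && check g u1 [s.na x y] &&
        withTb g s fun t => !(tb (ent t.P x) y) || (!(tb (ent t.R x) y) && check g u2 [s.add x y])
    | _ => false
  | .rel x y u1 u2, l => match l with
    | [s] => Nat.blt x s.n && Nat.blt y s.n && Nat.blt s.n 32 && !(Nat.beq x y) && check g u1 [s.nr x y] &&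
        withTb g s fun t => !(tb (ent t.K x) y) && check g u2 (opts g s t x y)
    | _ => false

/-- The cycle of length `g`. -/
def root (g : ℕ) : St := ⟨g, (List.range g).map (fun i => (i, (i + 1) % g)), [], []⟩

end Pool.Agent.helper62.DP8
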