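import Pool.Agent.helper62.DP8.Chk

/-!
# Project sq8: (MP_e3efbc_co): DP-colourings of squares of subcubic graphs: definitions

`sq G` is the square, `IsCover`, `HasColouring`, `dpChromatic` are the definitions of the problem. For the proof: `Cov H R L` is a cover without
conditions on the sizes of the lists (`R` the adjacency of the cover graph), `Good R T L` says that the vertices of `T` can be coloured, `Pc H T s` that
they can be coloured from all lists with `|L v| ≥ deg_T v + s v - 1` (`s v`: the slack).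
-/

set_option autoImplicit false

namespace Pool.Agent.helper62.DP8

/-- The square of a graph. -/
def sq {V : Type} (G : SimpleGraph V) : SimpleGraph V where
  Adj a b := a ≠ b ∧ (G.Adj a b ∨ ∃ c, G.Adj a c ∧ G.Adj c b)
  symm := by
    constructor
    rintro a b ⟨h1, h2⟩
    refine ⟨h1.symm, ?_⟩
    rcases h2 with h | ⟨c, h3, h4⟩
    · exact Or.inl h.symm
    · exact Or.inr ⟨c, h4.symm, h3.symm⟩
  loopless := ⟨fun a h => h.1 rfl⟩

/-- `(L, M)` is a `k`-fold cover of `H`. -/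
structure IsCover {V W : Type} (H : SimpleGraph V) (k : ℕ) (M : SimpleGraph W) (L : V → Finset W) : Prop where
  card : ∀ v, (L v).card = k
  part : ∀ w, ∃! v, w ∈ L v
  clique : ∀ v, ∀ a ∈ L v, ∀ b ∈ L v, a ≠ b → M.Adj a b
  matching : ∀ u v, H.Adj u v → ∀ a ∈ L u, ∀ b ∈ L v, ∀ b' ∈ L v, M.Adj a b → M.Adj a b' → b = b'
  nonadj : ∀ u v, u ≠ v → ¬ H.Adj u v → ∀ a ∈ L u, ∀ b ∈ L v, ¬ M.Adj a b

/-- There is an independent set of `M` with exactly one vertex `f v` in each `L v`. -/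
def HasColouring {V W : Type} (M : SimpleGraph W) (L : V → Finset W) : Prop :=
  ∃ f : V → W, (∀ v, f v ∈ L v) ∧ ∀ u v, ¬ M.Adj (f u) (f v)

/-- The DP-chromatic number: the least `k ≥ 1` such that every `k`-fold cover has a colouring. -/
noncomputable def dpChromatic {V : Type} (H : SimpleGraph V) : ℕ :=
  sInf {k | 1 ≤ k ∧ ∀ (W : Type) (M : SimpleGraph W) (L : V → Finset W), IsCover H k M L → HasColouring M L}

/-- The Petersen graph: the pairs of elements of a set with five elements, adjacent if they are disjoint. -/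
def petersen : SimpleGraph {s : Finset (Fin 5) // s.card = 2} where
  Adj s t := Disjoint s.1 t.1
  symm := ⟨fun _ _ h => Disjoint.symm h⟩
  loopless := ⟨fun s h => by
    have h1 : s.1 = ∅ := by simpa using h
    have h2 := s.2
    rw [h1] at h2
    simp at h2⟩

/-- A cover without conditions on the sizes of the lists. -/
structure Cov {V W : Type} (H : SimpleGraph V) (R : W → W → Prop) (L : V → Finset W) : Prop where
  symm : ∀ a b, R a b → R b a
  mat : ∀ u v, u ≠ v → ∀ a ∈ L u, ∀ b ∈ L v, ∀ b' ∈ L v, R a b → R a b' → b = b'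
  non : ∀ u v, u ≠ v → ¬ H.Adj u v → ∀ a ∈ L u, ∀ b ∈ L v, ¬ R a b

/-- The vertices of `T` can be coloured. -/
def Good {V W : Type} (R : W → W → Prop) (T : Finset V) (L : V → Finset W) : Prop :=
  ∃ f : V → W, (∀ v ∈ T, f v ∈ L v) ∧ ∀ u ∈ T, ∀ v ∈ T, u ≠ v → ¬ R (f u) (f v)

open Classical in
/-- Degree into the set `T`. -/
noncomputable def dg {V : Type} (H : SimpleGraph V) (T : Finset V) (v : V) : ℕ := (T.filter (fun u => H.Adj v u)).card

/-- The vertices of `T` can be coloured from all lists with `|L v| ≥ deg_T v + s v - 1`. -/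
def Pc {V : Type} (H : SimpleGraph V) (T : Finset V) (s : V → ℕ) : Prop :=
  ∀ (W : Type) (R : W → W → Prop) (L : V → Finset W), Nonempty W → Cov H R L → (∀ v ∈ T, dg H T v + s v ≤ (L v).card + 1) → Good R T L

/-- The aim: the square can be coloured from lists with eight elements. -/
def Goal {V : Type} (G : SimpleGraph V) : Prop :=
  ∀ (W : Type) (R : W → W → Prop) (L : V → Finset W), Nonempty W → Cov (sq G) R L → (∀ v, 8 ≤ (L v).card) →
    ∃ f : V → W, (∀ v, f v ∈ L v) ∧ ∀ u v, u ≠ v → ¬ R (f u) (f v)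

/-- All degrees are three. -/
def Cub {V : Type} (G : SimpleGraph V) : Prop := ∀ x, (G.neighborSet x).ncard = 3

/-- All degrees are at most three. -/
def Sub3 {V : Type} (G : SimpleGraph V) : Prop := ∀ x, (G.neighborSet x).ncard ≤ 3

/-- All cycles have length at least `g`. -/
def Gir {V : Type} (G : SimpleGraph V) (g : ℕ) : Prop := ∀ (x : V) (c : G.Walk x x), c.IsCycle → g ≤ c.length

/-- The pair `x`, `y` is in the list (in one of the two orders). -/
def eL (E : List (ℕ × ℕ)) (x y : ℕ) : Prop := (x, y) ∈ E ∨ (y, x) ∈ E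

/-- The state `s` is realised by the vertices `v x`, `x < s.n`. -/
structure Real {V : Type} (G : SimpleGraph V) (s : St) (v : ℕ → V) : Prop where
  n32 : s.n ≤ 32
  inj : ∀ x < s.n, ∀ y < s.n, v x = v y → x = y
  wfA : ∀ e ∈ s.A, e.1 < s.n ∧ e.2 < s.n ∧ G.Adj (v e.1) (v e.2)
  wfNA : ∀ e ∈ s.NA, e.1 < s.n ∧ e.2 < s.n ∧ ¬ G.Adj (v e.1) (v e.2)
  wfNR : ∀ e ∈ s.NR, e.1 < s.n ∧ e.2 < s.n ∧ e.1 ≠ e.2 ∧ ¬ (sq G).Adj (v e.1) (v e.2)

/-- The tables of a state. -/
def tbl (g : ℕ) (s : St) : Tb := withTb g s id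

/-- The vertices `v x` with `x < n` in the mask `T`. -/
def img {V : Type} [DecidableEq V] (n : ℕ) (v : ℕ → V) (T : ℕ) : Finset V := ((Finset.range n).filter (fun x => tb T x = true)).image v

/-- Data for the cycle with pendants: `a i` are the lists of the vertices of the cycle (periodic in `i`, period `g`), `R` is the adjacency of the cover,
`t i s x` says that the colour `x` kills the colour `s` of the pendant at `i` (for colours `x` at `i - 1`, `i`, `i + 1`). -/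
structure Cyc (g : ℕ) (W : Type) (a : ℕ → Finset W) (R : W → W → Prop) (t : ℕ → Bool → W → Prop) : Prop where
  g5 : 5 ≤ g
  pa : ∀ i, a (i + g) = a i
  pt : ∀ i s x, t (i + g) s x ↔ t i s x
  six : ∀ i, 6 ≤ (a i).card
  symm : ∀ x y, R x y → R y x
  mat : ∀ i j, i < j → j < i + g → ∀ x ∈ a i, ∀ y ∈ a j, ∀ y' ∈ a j, R x y → R x y' → y = y'
  mat' : ∀ i j, i < j → j < i + g → ∀ x ∈ a j, ∀ y ∈ a i, ∀ y' ∈ a i, R x y → R x y' → y = y'
  one : ∀ i j s, i ≤ j → j ≤ i + 2 → ∀ x ∈ a (i + 1), ∀ y ∈ a (i + 1), t j s x → t j s y → x = y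
  sgn : ∀ i j, i ≤ j → j ≤ i + 2 → ∀ x ∈ a (i + 1), ¬ (t j true x ∧ t j false x)

/-- A colouring of the cycle which leaves a colour for every pendant. -/
def Ans (g : ℕ) (W : Type) (a : ℕ → Finset W) (R : W → W → Prop) (t : ℕ → Bool → W → Prop) : Prop :=
  ∃ f : ℕ → W, (∀ i, f (i + g) = f i) ∧ (∀ i, f i ∈ a i) ∧ (∀ i, ¬ R (f i) (f (i + 1)) ∧ ¬ R (f i) (f (i + 2))) ∧
    ∀ i, ∃ s, ¬ t (i + 1) s (f i) ∧ ¬ t (i + 1) s (f (i + 1)) ∧ ¬ t (i + 1) s (f (i + 2))

/-- A partial colouring of the vertices `0`, `2`, ..., `m` of the cycle, where `c 0` touches no pendant. -/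
structure ChA (W : Type) (a : ℕ → Finset W) (R : W → W → Prop) (t : ℕ → Bool → W → Prop) (m : ℕ) (c : ℕ → W) : Prop where
  mem : ∀ j, 2 ≤ j → j ≤ m → c j ∈ a j
  r0 : ∀ j, 2 ≤ j → j ≤ m → ¬ R (c 0) (c j)
  r1 : ∀ j, 2 ≤ j → j + 1 ≤ m → ¬ R (c j) (c (j + 1))
  r2 : ∀ j, 2 ≤ j → j + 2 ≤ m → ¬ R (c j) (c (j + 2))
  p12 : ∀ s, ¬ t 1 s (c 2) ∧ ¬ t 2 s (c 2) ∧ ¬ t 2 s (c 3)
  pn : ∀ j, 2 ≤ j → j + 2 ≤ m → ∃ s, ¬ t (j + 1) s (c j) ∧ ¬ t (j + 1) s (c (j + 1)) ∧ ¬ t (j + 1) s (c (j + 2))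
  pm : ∃ s, ¬ t m s (c (m - 1)) ∧ ¬ t m s (c m)

/-- A partial colouring of the vertices `1`, ..., `m` of the cycle, where `c 1` does not touch the pendants `0`, `1`, and `c 2` does not touch the pendant `1`,
and `c m` does not touch the pendant `m + 1`. -/
structure ChB (W : Type) (a : ℕ → Finset W) (R : W → W → Prop) (t : ℕ → Bool → W → Prop) (m : ℕ) (c : ℕ → W) : Prop where
  mem : ∀ j, 1 ≤ j → j ≤ m → c j ∈ a j
  r1 : ∀ j, 1 ≤ j → j + 1 ≤ m → ¬ R (c j) (c (j + 1))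
  r2 : ∀ j, 1 ≤ j → j + 2 ≤ m → ¬ R (c j) (c (j + 2))
  p1 : ∀ s, ¬ t 0 s (c 1) ∧ ¬ t 1 s (c 1) ∧ ¬ t 1 s (c 2)
  pn : ∀ j, 1 ≤ j → j + 2 ≤ m → ∃ s, ¬ t (j + 1) s (c j) ∧ ¬ t (j + 1) s (c (j + 1)) ∧ ¬ t (j + 1) s (c (j + 2))
  pm : ∃ s, ¬ t m s (c (m - 1)) ∧ ¬ t m s (c m)
  nf : ∀ s, ¬ t (m + 1) s (c m)

/-- Every colour of the vertex `i + 1` of the cycle touches at most one colour of one of the pendants `i`, `i + 1`, `i + 2`, every colour of these
pendants is touched. -/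
structure Tight (W : Type) (a : ℕ → Finset W) (t : ℕ → Bool → W → Prop) : Prop where
  ex : ∀ i j s, i ≤ j → j ≤ i + 2 → ∃ x ∈ a (i + 1), t j s x
  un : ∀ i, ∀ x ∈ a (i + 1), ∀ j j' s s', i ≤ j → j ≤ i + 2 → i ≤ j' → j' ≤ i + 2 → t j s x → t j' s' x → j = j' ∧ s = s'

/-- `u` is a cycle of length `g`. -/
structure Cy {V : Type} (G : SimpleGraph V) (g : ℕ) (u : ℕ → V) : Prop where
  per : ∀ i, u (i + g) = u i
  inj : ∀ i < g, ∀ j < g, u i = u j → i = j
  adj : ∀ i, G.Adj (u i) (u (i + 1))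

end Pool.Agent.helper62.DP8
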