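import Pool.Agent.helper62.DP8.Defs

/-!
# Project sq8: (MP_e3efbc_co): the square of a subcubic graph without an induced Petersen graph has DP-chromatic number at most eight

Paper: /team-store/SQ8_paper_helper62.md. MAIN THEOREM (`FIN_stmt`): if `G` is a finite graph with all degrees at most three and no induced subgraph of
`G` is the Petersen graph, then `dpChromatic (sq G) ≤ 8`.

The finite part is done: `Chk.lean` (the checker) and `Trees.lean` (`tree3_ok`, ..., `tree8_ok`: `check g treeg [root g] = true`). The modules of this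
file are: the framework (`COL` ... `NCU`), the cycle with far apart pendants (`PIG` ... `ABH`), the semantics of the checker (`BIT` ... `CHK`), the
reduction to a shortest cycle and the end (`GP2` ... `FIN`).

RULES. File `Pool/Agent/<seat>/DP8/XX.lean`, `import Pool.Agent.helper62.DP8.Spec` (and any proved module you want to use),
`set_option autoImplicit false`, `namespace Pool.Agent.helper62.DP8`, `theorem XX (h : YY_stmt) ... : XX_stmt`. Any other statement of this file may be a
hypothesis if the docstring lists it under `uses` (no circles). Auxiliary lemmas prefixed `XX_`. No `sorry`.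

Conventions: `H` is the graph which is coloured (`sq G`), `dg H T v` the number of the `H`-neighbours of `v` in `T`. For masks: `tb m i` is `m.testBit i`
(`BIT`), labels are numbers `< s.n ≤ 32`.
-/

set_option autoImplicit false

namespace Pool.Agent.helper62.DP8

/-! ## Part 1: the framework -/

/-- short. Colour `v` by `x`. `L' u = (L u).filter (fun y => u = v ∨ ¬ R x y)`. `Cov H R L'`: all fields from `L' u ⊆ L u`. If `f` is a good colouring of
`T.erase v` from `L'` then `Function.update f v x` is a good colouring of `T` from `L` (for `u ∈ T`, `u ≠ v`: `f u ∈ L' u`, so `¬ R x (f u)`, and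
`¬ R (f u) x` by `symm`). If `u ≠ v` is not adjacent to `v` then nothing is removed (`Cov.non`), otherwise at most one element is removed (`Cov.mat`). -/
def COL_stmt : Prop := ∀ (V : Type) [DecidableEq V] (H : SimpleGraph V) (W : Type) (R : W → W → Prop) (L : V → Finset W), Cov H R L →
  ∀ v, ∀ x ∈ L v, ∃ L' : V → Finset W, Cov H R L' ∧ (∀ u y, y ∈ L' u ↔ y ∈ L u ∧ (u = v ∨ ¬ R x y)) ∧
    (∀ T : Finset V, v ∈ T → Good R (T.erase v) L' → Good R T L) ∧ (∀ u, u ≠ v → ¬ H.Adj v u → L' u = L u) ∧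
    (∀ u, u ≠ v → (L u).card ≤ (L' u).card + 1)

/-- short. -/
def DGE_stmt : Prop := ∀ (V : Type) [DecidableEq V] (H : SimpleGraph V) (T : Finset V) (u v : V),
  (H.Adj u v → v ∈ T → dg H (T.erase v) u + 1 = dg H T u) ∧ (¬ H.Adj u v → dg H (T.erase v) u = dg H T u)

/-- short. Immediate from the definitions (the second: every `f`). -/
def MON_stmt : Prop := (∀ (V : Type) (H : SimpleGraph V) (T : Finset V) (s s' : V → ℕ), (∀ v ∈ T, s v ≤ s' v) → Pc H T s → Pc H T s') ∧
  (∀ (V : Type) (H : SimpleGraph V) (s : V → ℕ), Pc H ∅ s)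

/-- short. uses: `COL`, `DGE`. `L v` is not empty; colour `v` by any colour, use `Pc` for the lists `L'` of `COL` (a neighbour loses at most one colour, its degree
falls by one). -/
def DEL_stmt : Prop := ∀ (V : Type) [DecidableEq V] (H : SimpleGraph V) (T : Finset V) (s : V → ℕ) (v : V),
  v ∈ T → 2 ≤ dg H T v + s v → Pc H (T.erase v) s → Pc H T s

/-- short/medium. uses: `COL`, `DGE`. Note `dg v + s v ≥ dg w + s w + 1 ≥ 2`, so `L v` is not empty. If `|L w| + 1 ≥ dg w + s w + 1` then colour `v` by any colour. Otherwise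
`|L w| + 1 = dg w + s w < |L v| + 1`; every `y ∈ L w` has at most one `R`-neighbour in `L v`, so some `x ∈ L v` has no `R`-neighbour in `L w`; colour `v` by `x`, then
`w` loses nothing. -/
def SAV_stmt : Prop := ∀ (V : Type) [DecidableEq V] (H : SimpleGraph V) (T : Finset V) (s : V → ℕ) (v w : V),
  v ∈ T → w ∈ T → H.Adj v w → dg H T w + s w + 1 ≤ dg H T v + s v → Pc H (T.erase v) (fun u => if u = w then s u + 1 else s u) → Pc H T s

/-- medium. uses: `COL`, `DGE`. Colour `a` and `b` so that `w` loses at most one colour (or has a spare one). Let `l = |L w|`. If `l + 1 ≥ dg w + s w + 1` then colour `a`, `b` by any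
colours (`a`, `b` are not adjacent, so the list of `b` does not change): `w` loses at most two colours, its degree falls by two. Otherwise `l + 1 = dg w + s w`, so
`|L a| + |L b| ≥ l + 1`. If some `x ∈ L a` has no `R`-neighbour in `L w` then colour `a` by `x` and `b` by any colour; the same for `b`. Otherwise both lists are mapped
injectively to `L w` (to the unique `R`-neighbour; injective by `Cov.mat` at `w`, `a` and `symm`), and the images meet: colours `x ∈ L a`, `y ∈ L b` with the same
neighbour in `L w`; `w` loses only this colour. -/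
def DBL_stmt : Prop := ∀ (V : Type) [DecidableEq V] (H : SimpleGraph V) (T : Finset V) (s : V → ℕ) (a b w : V),
  a ∈ T → b ∈ T → w ∈ T → a ≠ b → H.Adj a w → H.Adj b w → ¬ H.Adj a b → 2 ≤ dg H T a + s a → 2 ≤ dg H T b + s b →
  dg H T w + s w + 2 ≤ (dg H T a + s a) + (dg H T b + s b) →
  Pc H ((T.erase a).erase b) (fun u => if u = w then s u + 1 else s u) → Pc H T s

open Classical in
/-- short. uses: `DGE`. Colour `T.erase v` first (the neighbours have one neighbour less in `T.erase v`), then `v`: `|L v| ≥ dg v + 1` and every coloured neighbour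
kills at most one colour of `v` (`Cov.mat`), the others none (`Cov.non`). -/
def LST_stmt : Prop := ∀ (V : Type) [DecidableEq V] (H : SimpleGraph V) (T : Finset V) (s : V → ℕ) (v : V),
  v ∈ T → 2 ≤ s v → Pc H (T.erase v) (fun u => if H.Adj v u then s u + 1 else s u) → Pc H T s

/-- medium. uses: `DEL`. Remove the vertices outside `S` in the order of decreasing distance to `S` (induction on the number of the vertices of `T \ S`, for sets `T ⊇ S` such that every
`v ∈ T \ S` of distance `d` to `S` has a `G`-neighbour in `T` of distance `d - 1`; or: `T_d = {v | dist (v, S) ≤ d}` and remove the vertices at distance `d` one by one). If `v ∉ S` has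
distance `d ≥ 1` to `S` then it has a neighbour `v'` at distance `d - 1` and if `d ≥ 2` then `v'` has a neighbour `v''` at distance `d - 2`; if `d = 1` then `v' ∈ S`
has a neighbour `v'' ∈ S`. So `v` has two neighbours `v'`, `v''` in `sq G` (`v'' ≠ v`), which are still there, and `DEL` applies. -/
def EXT_stmt : Prop := ∀ (V : Type) [DecidableEq V] [Fintype V] (G : SimpleGraph V), G.Connected → ∀ S : Finset V, S.Nonempty →
  (∀ x ∈ S, ∃ y ∈ S, G.Adj x y) → ∀ s : V → ℕ, Pc (sq G) S s → Pc (sq G) Finset.univ s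

/-- short/medium. The neighbours of `x` in `sq G` are in the union of the sets `{z} ∪ (N(z) \ {x})`, `z ∈ N`, and `x ∈ N(z)`, so this set has at most
`deg z` elements. -/
def DGB_stmt : Prop := ∀ (V : Type) [DecidableEq V] [Fintype V] (G : SimpleGraph V) (x : V) (N : Finset V), (∀ z, z ∈ N ↔ G.Adj x z) →
  dg (sq G) Finset.univ x ≤ ∑ z ∈ N, (G.neighborSet z).ncard

/-- short. uses: `DGB`. -/
def DG9_stmt : Prop := ∀ (V : Type) [Fintype V] (G : SimpleGraph V), Sub3 G → ∀ x, dg (sq G) Finset.univ x ≤ 9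

/-- short. Definitions. -/
def GOA_stmt : Prop := ∀ (V : Type) [Fintype V] (G : SimpleGraph V) (s : V → ℕ), (∀ x, dg (sq G) Finset.univ x + s x ≤ 9) →
  Pc (sq G) Finset.univ s → Goal G

/-- medium. uses: `MON`, `LST`, `EXT`, `DGB`, `DG9`, `GOA`. Let `deg x ≤ 2`. If `x` has no neighbour then `V = {x}` (connected) and the claim is clear. Otherwise let `y` be a
neighbour of `x`, `S = {x, y}`, `s x = 3`, `s y = 1`, `s = 0` elsewhere. By `DGB` the degree of `x` in `sq G` is at most `6`, the degree of `y` is at most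
`3 + 3 + 2 = 8`, all others are at most `9`. `Pc (sq G) S s`: `LST` for `x`, then `LST` for `y` (its slack is now `2`), then `Pc H ∅`. -/
def NCU_stmt : Prop := ∀ (V : Type) [Fintype V] (G : SimpleGraph V), G.Connected → Sub3 G → (∃ x, (G.neighborSet x).ncard ≤ 2) → Goal G

/-! ## Part 2: a cycle with pendants

`a i` is the list of the vertex `i` of the cycle (six colours or more), adjacent in the square are `i`, `i + 1` and `i`, `i + 2`. The pendant at `i` has two colours
(`true`, `false`), it is adjacent to `i - 1`, `i`, `i + 1`. A colour touches the pendant `i` if it kills one of its colours (`t i s x`). -/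

/-- short. Every predicate of `P` holds for at most one element of `A`. Induction on `P`. -/
def PIG_stmt : Prop := ∀ (W : Type) (A : Finset W) (P : List (W → Prop)), P.length < A.card →
  (∀ p ∈ P, ∀ x ∈ A, ∀ y ∈ A, p x → p y → x = y) → ∃ x ∈ A, ∀ p ∈ P, ¬ p x

/-- short. Shift of the indices. If `f'` is a colouring for the shifted data then `f i = f' (i + (g - 1) * k)` is one for `a`, `t`:
`a ((i + (g - 1) * k) + k) = a (i + g * k) = a i`. -/
def SHF_stmt : Prop := ∀ (g : ℕ) (W : Type) (a : ℕ → Finset W) (R : W → W → Prop) (t : ℕ → Bool → W → Prop) (k : ℕ), Cyc g W a R t →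
  Cyc g W (fun i => a (i + k)) R (fun i => t (i + k)) ∧ (Ans g W (fun i => a (i + k)) R (fun i => t (i + k)) → Ans g W a R t)

/-- short/medium. `f i = c (i % g)`. For `i % g + 2 < g` the conditions are `hr1`, `hr2`, `hp`; the cases `i % g = g - 2`, `g - 1` are the other hypotheses. -/
def CLO_stmt : Prop := ∀ (g : ℕ) (W : Type) (a : ℕ → Finset W) (R : W → W → Prop) (t : ℕ → Bool → W → Prop) (c : ℕ → W), Cyc g W a R t →
  (∀ j < g, c j ∈ a j) → (∀ j, j + 1 < g → ¬ R (c j) (c (j + 1))) → (∀ j, j + 2 < g → ¬ R (c j) (c (j + 2))) →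
  (∀ j, j + 2 < g → ∃ s, ¬ t (j + 1) s (c j) ∧ ¬ t (j + 1) s (c (j + 1)) ∧ ¬ t (j + 1) s (c (j + 2))) →
  ¬ R (c (g - 1)) (c 0) → ¬ R (c (g - 1)) (c 1) → ¬ R (c (g - 2)) (c 0) →
  (∃ s, ¬ t (g - 1) s (c (g - 2)) ∧ ¬ t (g - 1) s (c (g - 1)) ∧ ¬ t (g - 1) s (c 0)) →
  (∃ s, ¬ t 0 s (c (g - 1)) ∧ ¬ t 0 s (c 0) ∧ ¬ t 0 s (c 1)) → Ans g W a R t

/-- medium. uses: `PIG`. The colour `φ` of the vertex `0` touches no pendant; colour the vertices `2`, ..., `g - 1` greedily. Vertex `2`: avoid `R φ`, `t 1 true`, `t 1 false`, `t 2 true`, `t 2 false`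
(five predicates, each holds for at most one element of `a 2`: `mat`, `one`). Vertex `3`: avoid `R φ`, `R (c 2)`, `t 2 true`, `t 2 false`, and `t 3 s`, where `s` is a sign with
`¬ t 3 s (c 2)` (`sgn`). This gives `ChA 3`. Step from `m ≥ 3` to `m + 1 ≤ g - 1`: `pm` gives a sign `s` with `¬ t m s (c (m - 1))`, `¬ t m s (c m)`, and `sgn` a sign `s'` with
`¬ t (m + 1) s' (c m)`; choose `x ∈ a (m + 1)` avoiding `R φ`, `R (c m)`, `R (c (m - 1))`, `t m s`, `t (m + 1) s'`. -/
def AA1_stmt : Prop := ∀ (g : ℕ) (W : Type) (a : ℕ → Finset W) (R : W → W → Prop) (t : ℕ → Bool → W → Prop), Cyc g W a R t →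
  ∀ φ ∈ a 0, (∀ s, ¬ t (g - 1) s φ ∧ ¬ t 0 s φ ∧ ¬ t 1 s φ) → ∃ c : ℕ → W, c 0 = φ ∧ ChA W a R t (g - 1) c

/-- medium. uses: `PIG`, `CLO`. Colour the vertex `1` last: let `s''` be a sign with `¬ t 0 s'' (c (g - 1))` (`sgn` for the list `a (g - 1)` and the pendant `g`, `t g` is `t 0`). Choose
`x ∈ a 1` avoiding `R (c 0)`, `R (c 2)`, `R (c 3)`, `R (c (g - 1))`, `t 0 s''` (use `mat`, `mat'` and periodicity; `a 1 = a (g + 1)`). Put `c 1 = x` and use `CLO`. Pendants: `0`: the sign `s''`. `1`: `x` touches at most one of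
its colours (`sgn`), `c 0` and `c 2` none. `2`: the same (`c 2`, `c 3` do not touch it). `3`, ..., `g - 2`: `pn`. `g - 1`: `pm`, and `c 0` does not touch it. -/
def AA2_stmt : Prop := ∀ (g : ℕ) (W : Type) (a : ℕ → Finset W) (R : W → W → Prop) (t : ℕ → Bool → W → Prop), Cyc g W a R t →
  ∀ c : ℕ → W, c 0 ∈ a 0 → (∀ s, ¬ t (g - 1) s (c 0) ∧ ¬ t 0 s (c 0) ∧ ¬ t 1 s (c 0)) → ChA W a R t (g - 1) c → Ans g W a R t

/-- medium. Fix `i`. There are six pairs `(j, s)`, `i ≤ j ≤ i + 2`, `s` a sign; every `x ∈ a (i + 1)` touches one of them, and every pair is touched by at most one `x`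
(`one`). Choose for every `x` a touched pair: this is an injection of `a (i + 1)`, which has at least six elements, to a set with six elements, so it is a bijection; this gives `ex`.
If `x` touches two pairs `q ≠ q'` then one of them, say `q'`, is not the chosen pair of `x`, it is the chosen pair of some `x' ≠ x`, and `q'` is touched by `x` and `x'`,
contradiction to `one`. -/
def PRT_stmt : Prop := ∀ (g : ℕ) (W : Type) (a : ℕ → Finset W) (R : W → W → Prop) (t : ℕ → Bool → W → Prop), Cyc g W a R t →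
  (∀ i, ∀ x ∈ a (i + 1), ∃ j s, i ≤ j ∧ j ≤ i + 2 ∧ t j s x) → Tight W a t

/-- medium. uses: `PIG`. Induction; step from `m` to `m + 1 ≤ g - 2`: `pm` gives a sign `s` with `¬ t m s (c (m - 1))`, `¬ t m s (c m)`. Choose `x ∈ a (m + 1)` avoiding `R (c m)`, `R (c (m - 1))`,
`t m s`, `t (m + 2) true`, `t (m + 2) false` (five predicates), put `c (m + 1) = x`. New `pm`: `c m` does not touch the pendant `m + 1` (`nf`), and `x` touches at most one of its
colours (`sgn`). -/
def BCH_stmt : Prop := ∀ (g : ℕ) (W : Type) (a : ℕ → Finset W) (R : W → W → Prop) (t : ℕ → Bool → W → Prop), Cyc g W a R t →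
  ∀ (m : ℕ) (c : ℕ → W), 2 ≤ m → m ≤ g - 2 → ChB W a R t m c → ∃ c' : ℕ → W, ChB W a R t (g - 2) c'

/-- medium/long. uses: `PIG`, `CLO`. First the vertex `g - 1`: `pm` gives a sign `s` with `¬ t (g - 2) s (c (g - 3))`, `¬ t (g - 2) s (c (g - 2))`; choose `x ∈ a (g - 1)` avoiding `R (c (g - 2))`,
`R (c (g - 3))`, `R (c 1)`, `t (g - 2) s` (four predicates; `1 < g - 1`). Then the vertex `0`: there is one predicate `p` (for at most one element of `a 0 = a g`) such that a colour `z ∈ a 0` with `¬ p z` leaves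
a colour for the pendants `g - 1` and `0`: by `Tight.un` `x` touches at most one of the pairs `(g - 1, s)`, `(g, s)`. If `t (g - 1) s' x` then `p = t (g - 1) (!s')` (pendant
`g - 1`: `c (g - 2)` does not touch it (`nf`), `x` only kills `s'`, so the other colour is left; pendant `0`: not touched by `x` and `c 1`, `z` kills at most one colour (`sgn`)).
If `t 0 s' x` then `p = t 0 (!s')`; otherwise `p` is false. Choose `z ∈ a 0` avoiding `R x`, `R (c (g - 2))`, `R (c 1)`, `R (c 2)`, `p`. Use `CLO` for the colouring `z, c 1, ..., c (g - 2), x`. Pendant `1`: only touched by `z`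
(`p1`), `sgn`. -/
def BFI_stmt : Prop := ∀ (g : ℕ) (W : Type) (a : ℕ → Finset W) (R : W → W → Prop) (t : ℕ → Bool → W → Prop), Cyc g W a R t → Tight W a t →
  ∀ c : ℕ → W, ChB W a R t (g - 2) c → Ans g W a R t

/-- short. Take `c 1 = x`, `c 2 = y` (all conditions from `Tight.un` (for `x`: the pendants `0`, `1` are not touched; for `y`: the pendants `1`, `3` are not touched) and `sgn`; `pm`: the sign `!v`). -/
def BB1_stmt : Prop := ∀ (g : ℕ) (W : Type) (a : ℕ → Finset W) (R : W → W → Prop) (t : ℕ → Bool → W → Prop), Cyc g W a R t → Tight W a t →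
  ∀ v, ∀ x ∈ a 1, ∀ y ∈ a 2, t 2 v x → t 2 v y → ¬ R x y → ∃ c : ℕ → W, ChB W a R t 2 c

/-- short/medium. Let `y₀ ∈ a 2` with `t 2 v y₀` and `y₁, y₂ ∈ a 2` with `t 3 true y₁`, `t 3 false y₂` (`Tight.ex`). They are different (`Tight.un`). `R x y₀`, so `¬ R x y₁`, `¬ R x y₂` (`mat`). As `y₁ ≠ y₂`, one
of them is not a neighbour of `z` (`mat'`), say `t 3 w y`, `¬ R z y`. Take `c 1 = x`, `c 2 = y`, `c 3 = z`. `p1`, `nf` from `Tight.un`; `pn` for `j = 1`: the sign `!v` (`y` does not touch the pendant `2`);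
`pm`: the sign `!w` (`z` does not touch the pendant `3`). -/
def BB2_stmt : Prop := ∀ (g : ℕ) (W : Type) (a : ℕ → Finset W) (R : W → W → Prop) (t : ℕ → Bool → W → Prop), Cyc g W a R t → Tight W a t →
  ∀ v, ∀ x ∈ a 1, ∀ z ∈ a 3, t 2 v x → t 2 v z → ¬ R x z → (∀ y ∈ a 2, t 2 v y → R x y) → ∃ c : ℕ → W, ChB W a R t 3 c

/-- short/medium. Let `f i ∈ a i` be the colour with `t (i + 1) true (f i)` (periodic: choose for `i % g`, `a 0 = a g`). `¬ R (f i) (f (i + 1))`: let `y ∈ a (i + 1)` with `t (i + 1) true y`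
(`Tight.ex`); then `R (f i) y`, and `y ≠ f (i + 1)` by `Tight.un` (`f (i + 1)` touches the pendant `i + 2`), so `¬ R (f i) (f (i + 1))` by `mat`. In the same way `¬ R (f i) (f (i + 2))`. No pendant loses the
colour `false` (`Tight.un`). Shift `i` by `g` where an index `i - 1` occurs. -/
def BB3_stmt : Prop := ∀ (g : ℕ) (W : Type) (a : ℕ → Finset W) (R : W → W → Prop) (t : ℕ → Bool → W → Prop), Cyc g W a R t → Tight W a t →
  (∀ i v, ∀ x ∈ a (i + 1), ∀ y ∈ a (i + 2), t (i + 2) v x → t (i + 2) v y → R x y) →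
  (∀ i v, ∀ x ∈ a (i + 1), ∀ z ∈ a (i + 3), t (i + 2) v x → t (i + 2) v z → R x z) → Ans g W a R t

/-- medium. uses: `SHF`, `AA1`, `AA2`, `PRT`, `BCH`, `BFI`, `BB1`, `BB2`, `BB3`. If some `φ ∈ a (i + 1)` touches none of the pendants `i`, `i + 1`, `i + 2` then shift by `i + 1` and use `AA1`, `AA2`. Otherwise
`PRT`. If the first hypothesis of `BB3` fails for `i` then shift by `i` and use `BB1`, `BCH` (`m = 2`), `BFI`. If it holds and the second one fails for `i` then shift by `i` and use `BB2`, `BCH` (`m = 3 ≤ g - 2`),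
`BFI` (`Tight` is invariant under shifts). Otherwise `BB3`. -/
def ABC_stmt : Prop := ∀ (g : ℕ) (W : Type) (a : ℕ → Finset W) (R : W → W → Prop) (t : ℕ → Bool → W → Prop), Cyc g W a R t → Ans g W a R t

/-- LONG. uses: `ABC`. `u i` are the vertices of the cycle, `p i` the pendants, `S` the set of all of them. Given a cover with `dg v ≤ |L v| + 1`: `dg (u i) ≥ 7` (the neighbours `u (i ± 1)`, `u (i ± 2)`, `p i`,
`p (i ± 1)`, indices mod `g`), so `|L (u i)| ≥ 6`; `dg (p i) ≥ 3`, so `|L (p i)| ≥ 2`: choose (as a function of the vertex `p i`) two colours `q (p i) true ≠ q (p i) false` in `L (p i)`. Put `a i = L (u i)`,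
`t i s x = R (q (p i) s) x`. `Cyc`: `mat`, `mat'` from `Cov.mat` (`u i ≠ u j` for `i < j < i + g`), `one` from `Cov.mat` for `p j`, `u (i + 1)`, `sgn` from `Cov.mat` for `u (i + 1)`, `p j` and `Cov.symm`.
The colouring of `Ans` gives a colouring of `S`: `u i` gets `f i`, `p i` gets `q (p i) s` with the sign of `Ans`. Pairs which are adjacent in `H`: `u i`, `u (i + 1)` and `u i`, `u (i + 2)` and
`p (i + 1)`, `u i`, `u (i + 1)`, `u (i + 2)`: by `Ans` (and `symm`); all other pairs of `S` are not adjacent (`hN1`, `hN2`, `hN3`, `Cov.non`). -/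
def ABH_stmt : Prop := ∀ (V : Type) [DecidableEq V] (H : SimpleGraph V) (g : ℕ) (u p : ℕ → V), 5 ≤ g → (∀ i, u (i + g) = u i) → (∀ i, p (i + g) = p i) →
  (∀ i < g, ∀ j < g, u i = u j → i = j) → (∀ i < g, ∀ j < g, p i = p j → i = j) → (∀ i j, u i ≠ p j) →
  (∀ i, H.Adj (u i) (u (i + 1)) ∧ H.Adj (u i) (u (i + 2)) ∧ H.Adj (p (i + 1)) (u i) ∧ H.Adj (p (i + 1)) (u (i + 1)) ∧ H.Adj (p (i + 1)) (u (i + 2))) →
  (∀ i k, 3 ≤ k → k + 3 ≤ g → ¬ H.Adj (u i) (u (i + k))) → (∀ i k, 2 ≤ k → k + 2 ≤ g → ¬ H.Adj (p i) (u (i + k))) → (∀ i j, ¬ H.Adj (p i) (p j)) →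
  Pc H ((Finset.range g).image u ∪ (Finset.range g).image p) (fun _ => 0)

/-! ## Part 3: the semantics of the checker -/

/-- short. -/
def BIT_stmt : Prop := (∀ m i, tb m i = m.testBit i) ∧ (∀ a b i, tb (Nat.lor a b) i = (tb a i || tb b i)) ∧
  (∀ a b i, tb (Nat.land a b) i = (tb a i && tb b i)) ∧ (∀ a b i, tb (dif a b) i = (tb a i && !tb b i)) ∧
  (∀ k i, tb (Nat.shiftLeft 1 k) i = decide (i = k)) ∧ (∀ i, tb 0 i = false) ∧ (∀ (α : Type) (n : ℕ) (k : ℕ → α), force n k = k n)

/-- short. uses: `BIT`. Inductions on `k`. -/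
def ORS_stmt : Prop := (∀ (m : ℕ) (f : ℕ → ℕ) (k i : ℕ), tb (orS m f k) i = true ↔ ∃ w < k, tb m w = true ∧ tb (f w) i = true) ∧
  (∀ m k, cnt m k = ((Finset.range k).filter (fun i => tb m i = true)).card) ∧
  (∀ D k x, tb (low D k) x = true ↔ x < k ∧ ent D x ≤ 2) ∧
  (∀ (S : ℕ) (p : ℕ → Bool) (k : ℕ), allS S p k = true ↔ ∀ x < k, tb S x = true → p x = true) ∧
  (∀ (p : ℕ → Bool) (k : ℕ), allN p k = true ↔ ∀ x < k, p x = true) ∧
  (∀ m D k, sumS m D k = ∑ x ∈ (Finset.range k).filter (fun i => tb m i = true), ent D x)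

/-- short/medium. uses: `BIT`. `ent T x` is `T / 2 ^ (32 * x) % 2 ^ 32`; look at the bits. In `rows` the bit `32 * x + y`, `y < 32`, is set if and only if one of the pairs is `(x, y)` or `(y, x)`. -/
def TAB_stmt : Prop := (∀ (T x y : ℕ), tb (ent T x) y = (decide (y < 32) && tb T (32 * x + y))) ∧
  (∀ (f : ℕ → ℕ) (n x : ℕ), ent (tab f n) x = if x < n then f x % 4294967296 else 0) ∧
  (∀ (f : ℕ → ℕ) (n x y : ℕ), tb (ent (tab f n) x) y = true ↔ x < n ∧ y < 32 ∧ tb (f x) y = true) ∧
  (∀ E : List (ℕ × ℕ), (∀ e ∈ E, e.1 < 32 ∧ e.2 < 32) → ∀ x y, tb (ent (rows E) x) y = true ↔ eL E x y)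

/-- short. uses: `BIT` (for `force`). All by unfolding. -/
def WTB_stmt : Prop := (∀ (α : Type) (g : ℕ) (s : St) (k : Tb → α), withTb g s k = k (tbl g s)) ∧
  (∀ (g : ℕ) (s : St), (tbl g s).R = rows s.A ∧ (tbl g s).D = tab (fun x => cnt (ent (tbl g s).R x) s.n) s.n ∧ (tbl g s).D2 = low (tbl g s).D s.n ∧
    (tbl g s).P = tab (fun x => Nat.lor (ent (tbl g s).R x) (bif tb (tbl g s).D2 x then
      dif (tbl g s).D2 (Nat.lor (Nat.lor (ent (rows s.NA) x) (ent (ball s.n (tbl g s).R (g - 2)) x))
        (Nat.lor (orS (ent (rows s.NR) x) (fun w => ent (tbl g s).R w) s.n) (orS (ent (tbl g s).R x) (fun w => ent (rows s.NR) w) s.n))) else 0)) s.n ∧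
    (tbl g s).O = tab (fun x => bif tb (tbl g s).D2 x then dif (tbl g s).D2 (ent (ball s.n (tbl g s).R (g - 3)) x) else 0) s.n ∧
    (tbl g s).K = tab (fun x => dif (Nat.lor (ent (tbl g s).R x) (orS (ent (tbl g s).R x) (fun w => ent (tbl g s).R w) s.n)) (Nat.shiftLeft 1 x)) s.n ∧
    (tbl g s).M = tab (fun x => dif (Nat.lor (Nat.lor (ent (tbl g s).P x) (ent (tbl g s).O x)) (orS (ent (tbl g s).P x)
      (fun w => bif tb (ent (tbl g s).R x) w || Nat.ble (ent (tbl g s).D w) 1 then ent (tbl g s).P w else ent (tbl g s).R w) s.n))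
      (Nat.lor (Nat.shiftLeft 1 x) (ent (rows s.NR) x))) s.n) ∧
  (∀ n R : ℕ, ball n R 0 = tab (fun x => Nat.shiftLeft 1 x) n) ∧
  (∀ n R k : ℕ, ball n R (k + 1) = tab (fun x => Nat.lor (ent (ball n R k) x) (orS (ent R x) (fun y => ent (ball n R k) y) n)) n)

/-- short. uses: `TAB`, `WTB`. From `Real.wfA` (`x ≠ y` since `G` has no loops). -/
def TRR_stmt : Prop := ∀ (V : Type) (G : SimpleGraph V) (g : ℕ) (s : St) (v : ℕ → V), Real G s v →
  (∀ x y, tb (ent (tbl g s).R x) y = true ↔ eL s.A x y) ∧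
  (∀ x y, tb (ent (tbl g s).R x) y = true → x < s.n ∧ y < s.n ∧ x ≠ y ∧ G.Adj (v x) (v y) ∧ tb (ent (tbl g s).R y) x = true)

/-- medium. uses: `ORS`, `TAB`, `WTB`, `TRR`. `D x` is the number of the `y` with `tb (R x) y` (at most `3`, as `v` is injective on the labels and the degree is three), `U` is the set of the other neighbours of `v x`. -/
def TDD_stmt : Prop := ∀ (V : Type) (G : SimpleGraph V) (g : ℕ) (s : St) (v : ℕ → V), Cub G → Real G s v →
  (∀ x < s.n, ent (tbl g s).D x = ((Finset.range s.n).filter (fun y => tb (ent (tbl g s).R x) y = true)).card) ∧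
  (∀ x, tb (tbl g s).D2 x = true ↔ x < s.n ∧ ent (tbl g s).D x ≤ 2) ∧
  (∀ x < s.n, ∃ U : Finset V, U.card + ent (tbl g s).D x = 3 ∧ ∀ z, z ∈ U ↔ G.Adj (v x) z ∧ ∀ y, tb (ent (tbl g s).R x) y = true → z ≠ v y)

/-- medium. uses: `BIT`, `ORS`, `TAB`, `WTB`, `TRR`. First for walks instead of paths, by induction on `k`: a walk of length at most `k` all whose edges are known (of the form `v a`, `v b` with `tb (R a) b`);
then `Walk.bypass` (its edges and its support are parts of the old ones). The condition on the edges: if `s(v a, v b) = s(v a', v b')` with `tb (R a') b'` then `(a, b) = (a', b')` or `(b', a')`. -/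
def BAL_stmt : Prop := ∀ (V : Type) (G : SimpleGraph V) (g : ℕ) (s : St) (v : ℕ → V), Real G s v → ∀ k x y,
  tb (ent (ball s.n (tbl g s).R k) x) y = true → x < s.n ∧ y < s.n ∧ ∃ p : G.Walk (v x) (v y), p.IsPath ∧ p.length ≤ k ∧
    (∀ z ∈ p.support, ∃ w < s.n, z = v w) ∧ (∀ a < s.n, ∀ b < s.n, s(v a, v b) ∈ p.edges → tb (ent (tbl g s).R a) b = true)

/-- medium. uses: `BIT`, `ORS`, `TAB`, `WTB`, `TRR`, `TDD`, `BAL`. If `tb (R x) y` this is clear. Otherwise `v y` is in the set `U` of `TDD` for `x`, so `D x ≤ 2`, in the same way `D y ≤ 2`. `y` is not in `NA x` (`wfNA`).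
`y` is not in the ball of radius `g - 2` around `x`: the path of `BAL` and the edge would give a cycle of length at most `g - 1` (`SimpleGraph.Walk.cons_isCycle_iff`; the edge is not on the path as it is not known).
`w ∈ NR x` and `y ∈ R w`: then `v x`, `v y`, `v w` is a walk, `v x ≠ v w`, so `(sq G).Adj (v x) (v w)`, contradiction to `wfNR`. `w ∈ R x` and `y ∈ NR w`: the same with `v w`, `v x`, `v y`. -/
def SPP_stmt : Prop := ∀ (V : Type) (G : SimpleGraph V) (g : ℕ) (s : St) (v : ℕ → V), 3 ≤ g → Cub G → Gir G g → Real G s v → ∀ x y, x < s.n → y < s.n →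
  G.Adj (v x) (v y) → tb (ent (tbl g s).P x) y = true

/-- medium. uses: `BIT`, `TAB`, `WTB`, `TRR`, `TDD`, `BAL`. `z` is in the sets `U` of `TDD` for `x` and for `y`, so `D x, D y ≤ 2`. `y` is not in the ball of radius `g - 3` around `x`: the path of `BAL` with the two edges at `z` would
give a cycle of length at most `g - 1` (`z` is not on the path). -/
def SOO_stmt : Prop := ∀ (V : Type) (G : SimpleGraph V) (g : ℕ) (s : St) (v : ℕ → V), 3 ≤ g → Cub G → Gir G g → Real G s v → ∀ x y, x < s.n → y < s.n → x ≠ y →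
  ∀ z, (∀ w < s.n, z ≠ v w) → G.Adj (v x) z → G.Adj z (v y) → tb (ent (tbl g s).O x) y = true

/-- short. uses: `BIT`, `ORS`, `TAB`, `WTB`, `TRR`. -/
def SKK_stmt : Prop := ∀ (V : Type) (G : SimpleGraph V) (g : ℕ) (s : St) (v : ℕ → V), Real G s v → ∀ x y, tb (ent (tbl g s).K x) y = true →
  x < s.n ∧ y < s.n ∧ x ≠ y ∧ (sq G).Adj (v x) (v y)

/-- medium. uses: `BIT`, `ORS`, `TAB`, `WTB`, `TRR`, `TDD`, `SPP`, `SOO`. Adjacent: `SPP`. Otherwise a common neighbour `z`. Not a label: `SOO`. `z = v w`: `w ∈ P x` and `y ∈ P w` by `SPP`. This is enough if `tb (R x) w` or `D w ≤ 1`.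
Otherwise `v x` is in the set `U` of `TDD` for `w`, and `U` has at most one element, so `v y ∉ U`, so `tb (R w) y`. `y ∉ NR x` by `wfNR`. -/
def SMM_stmt : Prop := ∀ (V : Type) (G : SimpleGraph V) (g : ℕ) (s : St) (v : ℕ → V), 3 ≤ g → Cub G → Gir G g → Real G s v → ∀ x y, x < s.n → y < s.n →
  (sq G).Adj (v x) (v y) → tb (ent (tbl g s).M x) y = true

/-- medium/long. uses: `BIT`, `ORS`, `TAB`, `WTB`, `TRR`, `TDD`. The neighbours of `v x` in `sq G` are: the `v y` with `tb (K x) y`; for every `z` in the set `U` of `TDD` for `x` (`3 - D x` elements) the vertex `z` and its neighbours different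
from `v x` (at most three vertices); for every `w` with `tb (R x) w` the elements of the set `U` of `TDD` for `w` (`3 - D w` elements). Here `Σ (3 - D w) = 3 * D x - Σ D w` as `D w ≤ 3`. (A neighbour of `v w`, `tb (R x) w`, which is not in `U` is `v y` with `tb (R w) y`, so it is
`v x` or `tb (K x) y`.) -/
def UBD_stmt : Prop := ∀ (V : Type) [Fintype V] (G : SimpleGraph V) (g : ℕ) (s : St) (v : ℕ → V), Cub G → Real G s v → ∀ x < s.n,
  dg (sq G) Finset.univ (v x) ≤ cnt (ent (tbl g s).K x) s.n + 3 * (3 - ent (tbl g s).D x) + (3 * ent (tbl g s).D x - sumS (ent (tbl g s).R x) (tbl g s).D s.n)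

/-- LONG. uses: `BIT`, `ORS`, `MON`, `DEL`, `SAV`, `DBL`, `LST`. Induction on `ms`, for all `T`, `s`, `σ`. By `MON` we may assume `σ (v x) = s x` for all `x ∈ T`. For `x ∈ T` the number `dg H (img n v T) (v x)` is at least `cnt (K x ∩ T) n` and at most
`cnt (M x ∩ T) n` (`v` is injective on the labels). `img n v (dif T (1 <<< a)) = (img n v T).erase (v a)`. `del`: `DEL`. `sav`: `SAV`. `dbl`: `DBL`. `last`: `LST` and `MON` (the neighbours which are only in `M` get nothing in `run`). -/
def RUN_stmt : Prop := ∀ (V : Type) [DecidableEq V] (H : SimpleGraph V) (n K M : ℕ) (v : ℕ → V), (∀ x < n, ∀ y < n, v x = v y → x = y) →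
  (∀ x < n, ∀ y < n, tb (ent K x) y = true → x ≠ y ∧ H.Adj (v x) (v y)) → (∀ x < n, ∀ y < n, H.Adj (v x) (v y) → tb (ent M x) y = true) →
  ∀ (ms : List Mv) (T : ℕ) (s : ℕ → ℕ) (σ : V → ℕ), (∀ i, tb T i = true → i < n) → (∀ x < n, tb T x = true → s x ≤ σ (v x)) →
    run n K M ms T s = true → Pc H (img n v T) σ

/-- medium. uses: `BIT`, `ORS`, `TAB`, `TRR`, `TDD`, `SKK`, `SMM`, `UBD`, `RUN`, `EXT`, `DG9`, `GOA`. `σ (v x) = s0 x` for the labels `x ∈ S`, `σ = 0` elsewhere; `dg (v x) + σ (v x) ≤ 9` for all vertices (`UBD`, `DG9`). `RUN`, `EXT` (every `x ∈ S` has a known neighbour in `S`),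
`GOA`. -/
def CRT_stmt : Prop := ∀ (V : Type) [Fintype V] (G : SimpleGraph V) (g : ℕ) (s : St) (v : ℕ → V), 3 ≤ g → G.Connected → Cub G → Gir G g → Real G s v →
  ∀ (S : ℕ) (ms : List Mv), okCert s (tbl g s) S ms = true → Goal G

/-- medium. uses: `WTB`, `TDD`, `SPP`, `SOO`. Adjacent: `s.add x y` is in the list by `SPP`. A common neighbour `z` which is not a label: `s.new2 x y` is in the list by `SOO`, realised by `Function.update v s.n z` (or `fun i => if i = s.n then z else v i`).
A common neighbour `z = v w`: the entry of `optW` for `w`: if `tb (R x) w`: `s.add w y` (`SPP` for `w`, `y`). If `tb (R y) w`: `s.add x w`. Otherwise `(s.add x w).add w y`: `SPP` for `s.add x w`, which is realised by `v`, gives the last test. -/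
def OPT_stmt : Prop := ∀ (V : Type) (G : SimpleGraph V) (g : ℕ) (s : St) (v : ℕ → V), 3 ≤ g → Cub G → Gir G g → Real G s v → s.n < 32 → ∀ x y, x < s.n → y < s.n →
  (sq G).Adj (v x) (v y) → ∃ s' ∈ opts g s (tbl g s) x y, ∃ v' : ℕ → V, Real G s' v'

/-- short/medium. uses: `TDD`, `SPP`. Take `z` in the set `U` of `TDD` for `x` (not empty). If `z = v y` then `s.add x y` is in the list (`SPP`), otherwise `s.new1 x`. -/
def NBS_stmt : Prop := ∀ (V : Type) (G : SimpleGraph V) (g : ℕ) (s : St) (v : ℕ → V), 3 ≤ g → Cub G → Gir G g → Real G s v → s.n < 32 → ∀ x, x < s.n →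
  tb (tbl g s).D2 x = true → ∃ s' ∈ nbrs s (tbl g s) x s.n, ∃ v' : ℕ → V, Real G s' v'

/-- medium/long. uses: `BIT`, `ORS`, `TRR`, `SMM`, `ABH`, `EXT`, `DG9`, `GOA`. `u i = v (i % g)`, `p i = v (g + i % g)`, `H = sq G`. From `tb (R i) ((i + 1) % g)`, `tb (R i) (g + i)`: `G.Adj (u i) (u (i + 1))`, `G.Adj (u i) (p i)`, so the positive hypotheses of `ABH` (`g ≥ 5`). The negative
ones from `SMM` and the tests on `M`. Then `EXT` for `S = {u i, p i}`, `GOA` with `s = 0`. -/
def CLN_stmt : Prop := ∀ (V : Type) [Fintype V] (G : SimpleGraph V) (g : ℕ) (s : St) (v : ℕ → V), 3 ≤ g → G.Connected → Cub G → Gir G g → Real G s v →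
  isClean g s (tbl g s) = true → Goal G

/-- medium. uses: `TRR`, `TDD`, `TAB`. All ten labels have degree three in the table, so `G.Adj (v x) (v y)` if and only if `tb (ent petRows x) y`. Bijection of the labels to the pairs: outer cycle `01, 23, 40, 12, 34` for the labels `0, ..., 4`,
`5, ..., 9`: `24, 14, 13, 03, 02` (neighbours of the spokes, then check the inner cycle by `decide`). -/
def PTS_stmt : Prop := ∀ (V : Type) (G : SimpleGraph V) (g : ℕ) (s : St) (v : ℕ → V), Cub G → Real G s v → isPet s (tbl g s) = true → Nonempty (petersen ↪g G)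

/-- medium/long. uses: `WTB`, `CRT`, `OPT`, `NBS`, `CLN`, `PTS`, `SPP`. Induction on `tr`. `adj`: if `G.Adj (v x) (v y)` then `SPP` and the second list, otherwise `s.na x y` is realised by `v`. `rel`: if `(sq G).Adj (v x) (v y)` then `OPT`, otherwise `s.nr x y` is realised by `v`. -/
def CHK_stmt : Prop := ∀ (V : Type) [Fintype V] (G : SimpleGraph V) (g : ℕ), 3 ≤ g → G.Connected → Cub G → Gir G g → IsEmpty (petersen ↪g G) →
  ∀ (tr : Tr) (l : List St), check g tr l = true → ∀ s ∈ l, ∀ v : ℕ → V, Real G s v → Goal G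

/-! ## Part 4: the shortest cycle, components -/

/-- medium. Two different paths between the same ends contain a cycle of length at most the sum of the lengths. Induction on the length of `p`: if both are `nil` they are equal; if one is `nil` the ends are equal and both are `nil`. `p = cons h p'`, `q = cons h' q'`: if the second vertices are
equal then induction for `p'`, `q'`. Otherwise let `x` be the start and `z` the first vertex of `p` after `x` which is on `q`; the two parts form a cycle. (Alternative: the walk `p` followed by `q.reverse` is closed; use `SimpleGraph.IsAcyclic` for the subgraph of the edges of `p` and `q`: if it is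
acyclic then `p = q`, so it contains a cycle, whose edges are distinct edges of `p` or `q`.) -/
def GP2_stmt : Prop := ∀ (V : Type) (G : SimpleGraph V) (g : ℕ), Gir G g → ∀ (x y : V) (p q : G.Walk x y), p.IsPath → q.IsPath → p ≠ q → g ≤ p.length + q.length

/-- medium. uses: `GP2`. The two arcs of the cycle between `u i` and `u (i + k)` are paths of lengths `k` and `g - k`, they are different from `q` as `z` is not on them. -/
def ARC_stmt : Prop := ∀ (V : Type) (G : SimpleGraph V) (g : ℕ) (u : ℕ → V), 3 ≤ g → Gir G g → Cy G g u → ∀ i k, 1 ≤ k → k < g → ∀ q : G.Walk (u i) (u (i + k)), q.IsPath →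
  (∃ z ∈ q.support, ∀ j, z ≠ u j) → g ≤ k + q.length ∧ k ≤ q.length

/-- short/medium. uses: `GP2`. The edge is a path of length one, the two arcs have lengths `k ≥ 2` and `g - k ≥ 2`, so `g ≤ k + 1`, contradiction. -/
def CHD_stmt : Prop := ∀ (V : Type) (G : SimpleGraph V) (g : ℕ) (u : ℕ → V), 3 ≤ g → Gir G g → Cy G g u → ∀ i k, 2 ≤ k → k + 2 ≤ g → ¬ G.Adj (u i) (u (i + k))

/-- medium. uses: `CHD`. `p i` is the third neighbour of `u i` (periodic: choose for `i % g`). -/
def PEN_stmt : Prop := ∀ (V : Type) (G : SimpleGraph V) (g : ℕ) (u : ℕ → V), 4 ≤ g → Gir G g → Cub G → Cy G g u → ∃ p : ℕ → V, (∀ i, p (i + g) = p i) ∧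
  (∀ i, G.Adj (u i) (p i)) ∧ (∀ i j, u i ≠ p j) ∧ (∀ i w, G.Adj (u (i + 1)) w → w = u i ∨ w = u (i + 2) ∨ w = p (i + 1))

/-- medium. uses: `ARC`. Let `j = i + k`, `1 ≤ k < g`. If `p i = p j` then `u i, p i, u j` is a path of length two, by `ARC` `k ≤ 2` and `g ≤ k + 2`, so `g ≤ 4`. If they are adjacent then the path `u i, p i, p j, u j` gives `g ≤ 6`. If they have a common neighbour `z`: if `z` is `u i` or `u j` then
`u i, p j, u j` or `u i, p i, u j` is a path of length two; otherwise `u i, p i, z, p j, u j` is a path of length four, `k ≤ 4`, `g ≤ k + 4 ≤ 8`. -/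
def CLP_stmt : Prop := ∀ (V : Type) (G : SimpleGraph V) (g : ℕ) (u p : ℕ → V), 9 ≤ g → Gir G g → Cy G g u → (∀ i, G.Adj (u i) (p i)) → (∀ i j, u i ≠ p j) →
  ∀ i k, 1 ≤ k → k < g → p i ≠ p (i + k) ∧ ¬ (sq G).Adj (p i) (p (i + k))

/-- medium/long. uses: `CHD`, `PEN`, `CLP`, `ABH`, `EXT`, `DG9`, `GOA`. The hypotheses of `ABH` for `H = sq G`. `u i`, `u (i + k)`, `3 ≤ k ≤ g - 3`: not adjacent in `G` by `CHD`; a common neighbour is one of `u (i ± 1)`, `p i` and one of `u (i + k ± 1)`, `p (i + k)`: impossible.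
`p i`, `u (i + k)`, `2 ≤ k ≤ g - 2`: adjacent: `p i` is one of the neighbours `u (i + k ± 1)`, `p (i + k)` of `u (i + k)`, impossible by `CLP`. A common neighbour `z` is `u (i + k ± 1)` (then `p i` is adjacent to it, so `k ± 1` is `0` or `g`, no) or `p (i + k)` (no by `CLP`). -/
def BIG_stmt : Prop := ∀ (V : Type) [Fintype V] (G : SimpleGraph V) (g : ℕ) (u : ℕ → V), 9 ≤ g → G.Connected → Gir G g → Cub G → Cy G g u → Goal G

/-- medium. A finite graph with all degrees three has a cycle (e.g. an acyclic graph has at most `|V| - 1` edges, or take a longest path); let `c` be a cycle of minimal length `g`, `u i = c.getVert (i % g)`. -/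
def CYC_stmt : Prop := ∀ (V : Type) [Fintype V] [Nonempty V] (G : SimpleGraph V), Cub G → ∃ (g : ℕ) (u : ℕ → V), 3 ≤ g ∧ Gir G g ∧ Cy G g u

/-- short. Definitions. -/
def CYR_stmt : Prop := ∀ (V : Type) (G : SimpleGraph V) (g : ℕ) (u : ℕ → V), 3 ≤ g → g ≤ 32 → Cy G g u → Real G (root g) u

/-- short. uses: `CHK`, `BIG`, `CYC`, `CYR`, and `tree3_ok`, ..., `tree8_ok` of `Pool.Agent.helper62.DP8.Trees`. -/
def MAI_stmt : Prop := ∀ (V : Type) [Fintype V] (G : SimpleGraph V), G.Connected → Cub G → IsEmpty (petersen ↪g G) → Goal G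

/-- medium. Colour the components separately. `sq (G.induce c.supp)` is the restriction of `sq G` to the component, vertices of different components are not adjacent in `sq G`. -/
def COM_stmt : Prop := ∀ (V : Type) (G : SimpleGraph V), (∀ c : G.ConnectedComponent, Goal (G.induce c.supp)) → Goal G

/-- short/medium. uses: `NCU`, `MAI`, `COM`. The components are connected, finite, subcubic, without induced Petersen graph; either all degrees are three (`MAI`) or one is at most two (`NCU`). -/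
def SUB_stmt : Prop := ∀ (V : Type) [Fintype V] (G : SimpleGraph V), Sub3 G → IsEmpty (petersen ↪g G) → Goal G

/-- short. uses: `SUB`. `Nat.sInf_le`; `R = M.Adj`. If `V` is empty then there is a colouring; otherwise the lists have eight elements and `W` is not empty. -/
def FIN_stmt : Prop := ∀ (V : Type) [Fintype V] (G : SimpleGraph V), (∀ x, (G.neighborSet x).ncard ≤ 3) → IsEmpty (petersen ↪g G) → dpChromatic (sq G) ≤ 8

end Pool.Agent.helper62.DP8
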